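import Mathlib
import Pool.Agent.H153R4.Main
set_option autoImplicit false

/-! The averaged fourth moment, bounded by the fourth power of the fourth norm. -/

namespace Pool.Agent.W777.ST

open MeasureTheory Set Complex FourierTransform
open scoped ENNReal RealInnerProductSpace ComplexConjugate
open Pool.Agent.H153R4

variable {n : ℕ}

lemma up_sq {M : ℝ} {ψ : E n → ℂ} (hψ : BS M ψ) :
    ∫⁻ z, ‖up ψ z‖ₑ ^ 2 ≤ ENNReal.ofReal (Real.exp (Real.pi * n) ^ 2) * ∫⁻ z, ‖ψ z‖ₑ ^ 2 := by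
  rw [← lintegral_const_mul _ (hψ.meas.enorm.pow_const 2)]
  apply lintegral_mono
  intro z
  simp only
  by_cases hz : z ∈ cube n
  · unfold up
    rw [enorm_mul, mul_pow]
    gcongr
    rw [← ofReal_norm, Complex.norm_real, Real.norm_of_nonneg (Real.exp_pos _).le,
      ← ENNReal.ofReal_pow (Real.exp_pos _).le]
    apply ENNReal.ofReal_le_ofReal
    have := norm_sq_cube hz
    have h1 : Real.exp (Real.pi * ‖z‖ ^ 2) ≤ Real.exp (Real.pi * n) := by
      apply Real.exp_le_exp.2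
      have := Real.pi_pos
      gcongr
    exact pow_le_pow_left₀ (Real.exp_pos _).le h1 2
  · unfold up
    rw [hψ.supp z hz]
    simp

/-- Integrated form of local constancy. -/
theorem loc_int2 {Y : Type*} [MeasurableSpace Y] (ν : Measure Y) [SFinite ν] (θ : Y → E n)
    (hθ : Measurable θ) (K : ℝ≥0∞)
    (hK : ∀ z, ∫⁻ y, ENNReal.ofReal (gm (z - θ y)) ∂ν ≤ K) {M : ℝ} {ψ : E n → ℂ} (hψ : BS M ψ) :
    ∫⁻ y, ‖𝓕 ψ (θ y)‖ₑ ^ 2 ∂ν ≤
      K * (ENNReal.ofReal (Real.exp (Real.pi * n) ^ 2) * ∫⁻ z, ‖ψ z‖ₑ ^ 2) := by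
  have hm : Measurable fun z : E n => ‖𝓕 (up ψ) z‖ₑ ^ 2 :=
    (F_cont hψ.up).measurable.enorm.pow_const 2
  calc ∫⁻ y, ‖𝓕 ψ (θ y)‖ₑ ^ 2 ∂ν
      ≤ ∫⁻ y, (∫⁻ z, ENNReal.ofReal (gm (z - θ y)) * ‖𝓕 (up ψ) z‖ₑ ^ 2) ∂ν :=
        lintegral_mono fun y => loc hψ (θ y)
    _ = ∫⁻ z, (∫⁻ y, ENNReal.ofReal (gm (z - θ y)) * ‖𝓕 (up ψ) z‖ₑ ^ 2 ∂ν) := by
        rw [lintegral_lintegral_swap]
        apply Measurable.aemeasurable
        have h1 : Measurable fun p : Y × E n => p.2 - θ p.1 :=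
          measurable_snd.sub (hθ.comp measurable_fst)
        exact ((gm_meas.comp h1).ennreal_ofReal).mul (hm.comp measurable_snd)
    _ ≤ ∫⁻ z, K * ‖𝓕 (up ψ) z‖ₑ ^ 2 := by
        apply lintegral_mono
        intro z
        have h1 : Measurable fun y : Y => ENNReal.ofReal (gm (z - θ y)) :=
          (gm_meas.comp (measurable_const.sub hθ)).ennreal_ofReal
        simp only
        rw [lintegral_mul_const _ h1]
        gcongr
        exact hK z
    _ = K * ∫⁻ z, ‖𝓕 (up ψ) z‖ₑ ^ 2 := lintegral_const_mul _ hm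
    _ ≤ _ := by
        gcongr
        rw [plancherel _ hψ.up.int (hψ.up.memLp 2)]
        exact up_sq hψ

lemma am_e (a b : ℝ) (ha : 0 ≤ a) (hb : 0 ≤ b) :
    (2 : ℝ≥0∞) * (ENNReal.ofReal a * ENNReal.ofReal b) ^ 2 ≤
      ENNReal.ofReal a ^ 4 + ENNReal.ofReal b ^ 4 := by
  have e2 : (2 : ℝ≥0∞) = ENNReal.ofReal 2 := by norm_num
  rw [← ENNReal.ofReal_mul ha, ← ENNReal.ofReal_pow (by positivity),
    ← ENNReal.ofReal_pow ha, ← ENNReal.ofReal_pow hb,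
    ← ENNReal.ofReal_add (by positivity) (by positivity), e2,
    ← ENNReal.ofReal_mul (by norm_num)]
  apply ENNReal.ofReal_le_ofReal
  nlinarith [sq_nonneg (a ^ 2 - b ^ 2)]

lemma kk_sq {g : E n → ℂ} (hg : Measurable g) (h : E n) :
    ∫⁻ z, ‖kk g h z‖ₑ ^ 2 ≤ ∫⁻ z, ‖g z‖ₑ ^ 4 := by
  have hm : Measurable fun z => ‖g z‖ₑ ^ 4 := hg.enorm.pow_const 4
  have h2 : (2 : ℝ≥0∞) * ∫⁻ z, ‖kk g h z‖ₑ ^ 2 ≤ 2 * ∫⁻ z, ‖g z‖ₑ ^ 4 := by
    calc (2 : ℝ≥0∞) * ∫⁻ z, ‖kk g h z‖ₑ ^ 2 = ∫⁻ z, 2 * ‖kk g h z‖ₑ ^ 2 := by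
          rw [lintegral_const_mul' _ _ (by norm_num)]
      _ ≤ ∫⁻ z, (‖g (z + h)‖ₑ ^ 4 + ‖g z‖ₑ ^ 4) := by
          apply lintegral_mono
          intro z
          simp only [kk]
          rw [enorm_mul]
          have hc : ‖conj (g z)‖ₑ = ‖g z‖ₑ := by
            rw [← ofReal_norm, ← ofReal_norm, RCLike.norm_conj]
          rw [hc]
          rw [← ofReal_norm, ← ofReal_norm]
          exact am_e _ _ (norm_nonneg _) (norm_nonneg _)
      _ = (∫⁻ z, ‖g (z + h)‖ₑ ^ 4) + ∫⁻ z, ‖g z‖ₑ ^ 4 := lintegral_add_right _ hm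
      _ = 2 * ∫⁻ z, ‖g z‖ₑ ^ 4 := by
          rw [lintegral_add_right_eq_self (fun z => ‖g z‖ₑ ^ 4) h]
          ring
  exact (ENNReal.mul_le_mul_iff_right (by norm_num) (by norm_num)).1 h2

/-- constant -/
noncomputable def J4 (n : ℕ) (β : ℝ) : ℝ≥0∞ :=
  (∫⁻ h in Q2 n, ∏ j, ENNReal.ofReal (|h j| ^ (β - 1))) *
    ENNReal.ofReal (Real.exp (Real.pi * n) ^ 2)

lemma J4_fin (n : ℕ) (β : ℝ) (hβ : 0 < β) : J4 n β < ⊤ :=
  ENNReal.mul_lt_top (J_fin n β hβ) ENNReal.ofReal_lt_top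

theorem block4s {m : ℕ} (μ : Measure (Fin m → ℝ)) [SFinite μ] (A α L T β : ℝ) (hA : 0 ≤ A)
    (hL : 1 ≤ L) (hT : 1 ≤ T)
    (hμ : ∀ (a : Fin m → ℝ) (r : ℝ), 0 < r → r ≤ 1 →
      μ (Icc a (fun j => a j + r)) ≤ ENNReal.ofReal (A * r ^ α))
    (hβ0 : 0 ≤ β) (hβ1 : β ≤ 1) {M : ℝ} {g : E (m + 1) → ℂ} (hg : BS M g) :
    ∫⁻ p, (∫⁻ x, ‖𝓕 (ch (sv p) g) x‖ₑ ^ 4)
        ∂((volume.restrict (ST T)).prod (μ.restrict (Icc (fun _ => -L) (fun _ => L)))) ≤
      ENNReal.ofReal (KT m A α L T β) * J4 (m + 1) β * ∫⁻ z, ‖g z‖ₑ ^ 4 := by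
  set ν := (volume.restrict (ST T)).prod (μ.restrict (Icc (fun _ : Fin m => -L) (fun _ => L)))
    with hν
  simp only [four_ch hg]
  have hm := (meas_FK (m := m) hg.meas).enorm.pow_const 2
  rw [lintegral_lintegral_swap (by
    exact (hm.comp measurable_swap).aemeasurable)]
  set R : ℝ≥0∞ := ENNReal.ofReal (Real.exp (Real.pi * (m + 1 : ℕ)) ^ 2) * ∫⁻ z, ‖g z‖ₑ ^ 4
    with hR
  have hae : ∀ᵐ h : E (m + 1), ∫⁻ p, ‖𝓕 (kk g h) (dd (sv p) h)‖ₑ ^ 2 ∂ν ≤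
      (Q2 (m + 1)).indicator (fun h => (ENNReal.ofReal (KT m A α L T β) *
        ∏ j, ENNReal.ofReal (|h j| ^ (β - 1))) * R) h := by
    filter_upwards [ae_ne_zero (m + 1)] with h hh0
    by_cases hh : h ∈ Q2 (m + 1)
    · rw [indicator_of_mem hh]
      refine (loc_int2 ν (fun p => dd (sv p) h) ?_ (ENNReal.ofReal (KT m A α L T β) *
        ∏ j, ENNReal.ofReal (|h j| ^ (β - 1))) ?_ (hg.kk h)).trans ?_
      · unfold dd
        apply (PiLp.volume_preserving_toLp (Fin (m + 1))).measurable.comp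
        rw [measurable_pi_iff]
        intro j
        have hs : Measurable fun p : ℝ × (Fin m → ℝ) => sv p j :=
          (measurable_pi_apply j).comp sv_meas
        exact (measurable_const.mul hs).mul measurable_const
      · intro z
        exact nu_bound μ A α L T β hA hL hT hμ hβ0 hβ1 h z hh hh0
      · rw [hR]
        exact mul_le_mul' le_rfl (mul_le_mul' le_rfl (kk_sq hg.meas h))
    · rw [indicator_of_notMem hh]
      have h1 : ∃ j, 2 < |h j| := by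
        by_contra hc
        push Not at hc
        exact hh hc
      have h2 : kk g h = 0 := by
        ext z
        exact kk_zero hg h h1 z
      have h3 : ∀ y, 𝓕 (kk g h) y = 0 := by
        intro y
        rw [h2, Real.fourier_eq]
        simp
      simp [h3]
  refine (lintegral_mono_ae hae).trans ?_
  rw [lintegral_indicator (Q2_meas _), lintegral_mul_const _ (by fun_prop),
    lintegral_const_mul _ (by fun_prop)]
  apply le_of_eq
  rw [hR, J4]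
  ring

/-- Plancherel for chirps of integrable, square integrable functions -/
lemma two_gen {g : E n → ℂ} (hg : Measurable g) (hi : Integrable g) (h2 : MemLp g 2)
    (s : Fin n → ℝ) : ∫⁻ ξ : E n, ‖𝓕 (ch s g) ξ‖ₑ ^ 2 = ∫⁻ z, ‖g z‖ₑ ^ 2 := by
  have hm : Measurable (ch s g) := by
    unfold ch
    exact (by fun_prop : Measurable fun z : E n =>
      cexp (((-(2 * Real.pi * ∑ j, s j * z j ^ 2) : ℝ) : ℂ) * I)).mul hg
  have i1 : Integrable (ch s g) := by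
    refine (integrable_norm_iff hm.aestronglyMeasurable).1 ?_
    simp only [ch_norm]
    exact hi.norm
  have i2 : MemLp (ch s g) 2 := by
    refine h2.congr_norm hm.aestronglyMeasurable (ae_of_all _ fun z => ?_)
    rw [ch_norm]
  rw [plancherel _ i1 i2]
  simp only [ch_enorm]

end Pool.Agent.W777.ST
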