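import Mathlib
import Pool.Agent.W777.ST.B4
set_option autoImplicit false

/-! Decomposition of a function into its level sets. -/

namespace Pool.Agent.W777.ST

open MeasureTheory Set Complex FourierTransform
open scoped ENNReal NNReal RealInnerProductSpace
open Pool.Agent.H153R4

variable {n : ℕ}

/-- level sets -/
def Lv (f : E n → ℂ) : ℕ → Set (E n)
  | 0 => {z | ‖f z‖ ≤ 1}
  | (k + 1) => {z | 2 ^ k < ‖f z‖ ∧ ‖f z‖ ≤ 2 ^ (k + 1)}

lemma Lv_meas {f : E n → ℂ} (hf : Measurable f) (k : ℕ) : MeasurableSet (Lv f k) := by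
  cases k with
  | zero => exact measurableSet_le hf.norm measurable_const
  | succ k =>
    exact (measurableSet_lt measurable_const hf.norm).inter
      (measurableSet_le hf.norm measurable_const)

lemma Lv_le {f : E n → ℂ} {k : ℕ} {z : E n} (h : z ∈ Lv f k) : ‖f z‖ ≤ 2 ^ k := by
  cases k with
  | zero =>
    rw [pow_zero]
    exact h
  | succ k => exact h.2

lemma Lv_lt {f : E n → ℂ} {j k : ℕ} (hjk : j < k) {z : E n} (hj : z ∈ Lv f j)
    (hk : z ∈ Lv f k) : False := by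
  cases k with
  | zero => omega
  | succ k =>
    have h1 := Lv_le hj
    have h2 : (2:ℝ) ^ j ≤ 2 ^ k := pow_le_pow_right₀ (by norm_num) (by omega)
    have h3 := hk.1
    linarith

lemma Lv_unique {f : E n → ℂ} {j k : ℕ} {z : E n} (hj : z ∈ Lv f j) (hk : z ∈ Lv f k) :
    j = k := by
  rcases lt_trichotomy j k with h | h | h
  · exact (Lv_lt h hj hk).elim
  · exact h
  · exact (Lv_lt h hk hj).elim

lemma Lv_exists (f : E n → ℂ) (z : E n) : ∃ k, z ∈ Lv f k := by
  classical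
  have hex : ∃ k : ℕ, ‖f z‖ ≤ 2 ^ k := by
    obtain ⟨k, hk⟩ := pow_unbounded_of_one_lt ‖f z‖ (by norm_num : (1:ℝ) < 2)
    exact ⟨k, hk.le⟩
  rcases h : Nat.find hex with _ | k
  · refine ⟨0, ?_⟩
    have h1 := Nat.find_spec hex
    rw [h, pow_zero] at h1
    exact h1
  · refine ⟨k + 1, ?_, ?_⟩
    · have h1 := Nat.find_min hex (m := k) (by omega)
      exact not_le.1 h1
    · have h1 := Nat.find_spec hex
      rw [h] at h1
      exact h1

/-- the part of `f` on a level set -/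
noncomputable def fk (f : E n → ℂ) (k : ℕ) : E n → ℂ := (Lv f k).indicator f

lemma fk_meas {f : E n → ℂ} (hf : Measurable f) (k : ℕ) : Measurable (fk f k) :=
  hf.indicator (Lv_meas hf k)

lemma fk_bd (f : E n → ℂ) (k : ℕ) (z : E n) : ‖fk f k z‖ ≤ 2 ^ k := by
  unfold fk
  by_cases h : z ∈ Lv f k
  · rw [indicator_of_mem h]
    exact Lv_le h
  · rw [indicator_of_notMem h, norm_zero]
    positivity

lemma fk_BS {f : E n → ℂ} (hf : Measurable f) (hs : ∀ z, z ∉ cube n → f z = 0) (k : ℕ) :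
    BS (2 ^ k) (fk f k) := by
  refine ⟨fk_meas hf k, fk_bd f k, fun z hz => ?_⟩
  unfold fk
  by_cases h : z ∈ Lv f k
  · rw [indicator_of_mem h, hs z hz]
  · rw [indicator_of_notMem h]

lemma fk_sum (f : E n → ℂ) (z : E n) : HasSum (fun k => fk f k z) (f z) := by
  obtain ⟨k, hk⟩ := Lv_exists f z
  have h1 : fk f k z = f z := indicator_of_mem hk f
  rw [← h1]
  apply hasSum_single k
  intro j hj
  unfold fk
  rw [indicator_of_notMem]
  intro h
  exact hj (Lv_unique h hk)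

/-- pointwise bound for the powers -/
lemma fk_pow {f : E n → ℂ} (hs : ∀ z, z ∉ cube n → f z = 0) {q r : ℝ} (hq : 0 ≤ q)
    (hr : 0 < r) (k : ℕ) (z : E n) : ‖fk f k z‖ ^ r ≤
      ((2:ℝ) ^ k) ^ (r - q) * (2 ^ q * ‖f z‖ ^ q + (cube n).indicator (fun _ => 1) z) := by
  have hind : 0 ≤ (cube n).indicator (fun _ => (1:ℝ)) z :=
    indicator_nonneg (fun _ _ => zero_le_one) z
  have hfq : 0 ≤ ‖f z‖ ^ q := Real.rpow_nonneg (norm_nonneg _) q
  by_cases h : z ∈ Lv f k
  · unfold fk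
    rw [indicator_of_mem h]
    by_cases hz : z ∈ cube n
    · rw [indicator_of_mem hz]
      cases k with
      | zero =>
        have h1 : ‖f z‖ ≤ 1 := h
        rw [pow_zero, Real.one_rpow, one_mul]
        have h2 : ‖f z‖ ^ r ≤ 1 := Real.rpow_le_one (norm_nonneg _) h1 hr.le
        have h3 : 0 ≤ (2:ℝ) ^ q * ‖f z‖ ^ q := by positivity
        linarith
      | succ k =>
        obtain ⟨h1, h2⟩ := h
        have hpos : 0 < ‖f z‖ := lt_trans (by positivity) h1
        have e1 : ‖f z‖ ^ r = ‖f z‖ ^ (r - q) * ‖f z‖ ^ q := by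
          rw [← Real.rpow_add hpos]
          congr 1
          ring
        have h3 : ‖f z‖ ^ (r - q) ≤ ((2:ℝ) ^ (k + 1)) ^ (r - q) * 2 ^ q := by
          rcases le_or_gt q r with hqr | hqr
          · calc ‖f z‖ ^ (r - q) ≤ ((2:ℝ) ^ (k + 1)) ^ (r - q) :=
                Real.rpow_le_rpow hpos.le h2 (by linarith)
              _ ≤ ((2:ℝ) ^ (k + 1)) ^ (r - q) * 2 ^ q :=
                le_mul_of_one_le_right (by positivity) (Real.one_le_rpow (by norm_num) hq)
          · calc ‖f z‖ ^ (r - q) ≤ ((2:ℝ) ^ k) ^ (r - q) :=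
                Real.rpow_le_rpow_of_nonpos (by positivity) h1.le (by linarith)
              _ = ((2:ℝ) ^ (k + 1)) ^ (r - q) * 2 ^ (q - r) := by
                rw [pow_succ, Real.mul_rpow (by positivity) (by norm_num), mul_assoc,
                  ← Real.rpow_add (by norm_num)]
                norm_num
              _ ≤ ((2:ℝ) ^ (k + 1)) ^ (r - q) * 2 ^ q := by
                have : (2:ℝ) ^ (q - r) ≤ 2 ^ q :=
                  Real.rpow_le_rpow_of_exponent_le (by norm_num) (by linarith)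
                gcongr
        rw [e1]
        calc ‖f z‖ ^ (r - q) * ‖f z‖ ^ q ≤ (((2:ℝ) ^ (k + 1)) ^ (r - q) * 2 ^ q) * ‖f z‖ ^ q := by
              gcongr
          _ ≤ ((2:ℝ) ^ (k + 1)) ^ (r - q) * (2 ^ q * ‖f z‖ ^ q + 1) := by
              have : 0 ≤ ((2:ℝ) ^ (k + 1)) ^ (r - q) := by positivity
              nlinarith
    · rw [hs z hz, norm_zero, Real.zero_rpow hr.ne']
      have h4 : 0 ≤ (2:ℝ) ^ q * 0 ^ q :=
        mul_nonneg (by positivity) (Real.rpow_nonneg le_rfl q)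
      have h5 : 0 ≤ ((2:ℝ) ^ k) ^ (r - q) := by positivity
      exact mul_nonneg h5 (add_nonneg h4 hind)
  · unfold fk
    rw [indicator_of_notMem h, norm_zero, Real.zero_rpow hr.ne']
    have h4 : 0 ≤ (2:ℝ) ^ q * ‖f z‖ ^ q := by positivity
    have h5 : 0 ≤ ((2:ℝ) ^ k) ^ (r - q) := by positivity
    exact mul_nonneg h5 (add_nonneg h4 hind)

/-- the total mass constant -/
noncomputable def VV (q : ℝ) (f : E n → ℂ) : ℝ≥0∞ :=
  ENNReal.ofReal (2 ^ q) * (∫⁻ z, ‖f z‖ₑ ^ q) + volume (cube n)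

lemma fk_int {f : E n → ℂ} (hs : ∀ z, z ∉ cube n → f z = 0) {q : ℝ}
    (hq : 0 ≤ q) (r : ℕ) (hr : 0 < r) (k : ℕ) : ∫⁻ z, ‖fk f k z‖ₑ ^ r ≤
      ENNReal.ofReal (((2:ℝ) ^ k) ^ ((r : ℝ) - q)) * VV q f := by
  have hr' : (0:ℝ) < r := by exact_mod_cast hr
  have h1 : ∀ z, ‖fk f k z‖ₑ ^ r ≤ ENNReal.ofReal (((2:ℝ) ^ k) ^ ((r : ℝ) - q)) *
      (ENNReal.ofReal (2 ^ q) * ‖f z‖ₑ ^ q + (cube n).indicator (fun _ => 1) z) := by
    intro z
    have h2 := fk_pow hs hq hr' k z
    have h3 : ‖fk f k z‖ₑ ^ r = ENNReal.ofReal (‖fk f k z‖ ^ (r : ℝ)) := by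
      rw [Real.rpow_natCast, ENNReal.ofReal_pow (norm_nonneg _), ofReal_norm]
    have h4 : ‖f z‖ₑ ^ q = ENNReal.ofReal (‖f z‖ ^ q) := by
      rw [← ENNReal.ofReal_rpow_of_nonneg (norm_nonneg _) hq, ofReal_norm]
    have h5 : (cube n).indicator (fun _ => (1:ℝ≥0∞)) z =
        ENNReal.ofReal ((cube n).indicator (fun _ => (1:ℝ)) z) := by
      by_cases hz : z ∈ cube n
      · rw [indicator_of_mem hz, indicator_of_mem hz, ENNReal.ofReal_one]
      · rw [indicator_of_notMem hz, indicator_of_notMem hz, ENNReal.ofReal_zero]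
    have h6 : 0 ≤ ‖f z‖ ^ q := Real.rpow_nonneg (norm_nonneg _) q
    rw [h3, h4, h5, ← ENNReal.ofReal_mul (by positivity), ← ENNReal.ofReal_add (by positivity)
      (indicator_nonneg (fun _ _ => zero_le_one) z), ← ENNReal.ofReal_mul (by positivity)]
    exact ENNReal.ofReal_le_ofReal h2
  refine (lintegral_mono h1).trans (le_of_eq ?_)
  rw [lintegral_const_mul' _ _ ENNReal.ofReal_ne_top,
    lintegral_add_right _ (measurable_const.indicator (cube_meas n)),
    lintegral_const_mul' _ _ ENNReal.ofReal_ne_top, lintegral_indicator (cube_meas n),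
    lintegral_const, Measure.restrict_apply_univ, one_mul, VV]

lemma ch_int {g : E n → ℂ} (hg : Measurable g) (hi : Integrable g) (s : Fin n → ℝ) :
    Integrable (ch s g) := by
  have hm : Measurable (ch s g) := by
    unfold ch
    exact (by fun_prop : Measurable fun z : E n =>
      cexp (((-(2 * Real.pi * ∑ j, s j * z j ^ 2) : ℝ) : ℂ) * I)).mul hg
  refine (integrable_norm_iff hm.aestronglyMeasurable).1 ?_
  simp only [ch_norm]
  exact hi.norm

/-- the Fourier transform of the sum -/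
lemma F_sum {f : E n → ℂ} (hf : Measurable f) (hs : ∀ z, z ∉ cube n → f z = 0) {q : ℝ}
    (hq : 1 < q) (hV : VV q f ≠ ⊤) (s : Fin n → ℝ) (x : E n) :
    ‖𝓕 (ch s f) x‖ₑ ≤ ∑' k, ‖𝓕 (ch s (fk f k)) x‖ₑ := by
  have hF : ∀ k, Integrable fun z => Real.fourierChar (-⟪z, x⟫) • ch s (fk f k) z := fun k =>
    (Real.fourierIntegral_convergent_iff (μ := volume) x).2 ((fk_BS hf hs k).ch s).int
  have hnorm : ∀ k, ∫ z, ‖Real.fourierChar (-⟪z, x⟫) • ch s (fk f k) z‖ ≤
      (VV q f).toReal * ((2:ℝ) ^ (1 - q)) ^ k := by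
    intro k
    simp only [Circle.norm_smul, ch_norm]
    rw [integral_norm_eq_lintegral_enorm (fk_meas hf k).aestronglyMeasurable]
    have h1 := fk_int hs (by linarith : 0 ≤ q) 1 one_pos k
    simp only [pow_one] at h1
    have h2 : ENNReal.ofReal (((2:ℝ) ^ k) ^ (((1:ℕ) : ℝ) - q)) * VV q f ≠ ⊤ :=
      ENNReal.mul_ne_top ENNReal.ofReal_ne_top hV
    refine (ENNReal.toReal_mono h2 h1).trans (le_of_eq ?_)
    rw [ENNReal.toReal_mul, ENNReal.toReal_ofReal (by positivity), mul_comm]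
    congr 1
    push_cast
    rw [← Real.rpow_natCast, ← Real.rpow_natCast, ← Real.rpow_mul (by norm_num),
      ← Real.rpow_mul (by norm_num)]
    congr 1
    ring
  have hsum : Summable fun k => ∫ z, ‖Real.fourierChar (-⟪z, x⟫) • ch s (fk f k) z‖ := by
    refine Summable.of_nonneg_of_le (fun k => integral_nonneg fun z => norm_nonneg _) hnorm ?_
    refine (summable_geometric_of_lt_one (by positivity) ?_).mul_left _
    exact Real.rpow_lt_one_of_one_lt_of_neg (by norm_num) (by linarith)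
  have h1 := hasSum_integral_of_summable_integral_norm hF hsum
  have h2 : ∀ z, ∑' k, Real.fourierChar (-⟪z, x⟫) • ch s (fk f k) z =
      Real.fourierChar (-⟪z, x⟫) • ch s f z := by
    intro z
    have h3 := (fk_sum f z).mul_left
      (((Real.fourierChar (-⟪z, x⟫) : Circle) : ℂ) *
        cexp (((-(2 * Real.pi * ∑ j, s j * z j ^ 2) : ℝ) : ℂ) * I))
    have e1 : (fun k => Real.fourierChar (-⟪z, x⟫) • ch s (fk f k) z) =
        fun k => (((Real.fourierChar (-⟪z, x⟫) : Circle) : ℂ) *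
        cexp (((-(2 * Real.pi * ∑ j, s j * z j ^ 2) : ℝ) : ℂ) * I)) * fk f k z := by
      funext k
      unfold ch
      rw [Circle.smul_def, smul_eq_mul]
      exact (mul_assoc _ _ _).symm
    rw [e1, h3.tsum_eq]
    unfold ch
    rw [Circle.smul_def, smul_eq_mul]
    exact mul_assoc _ _ _
  simp only [h2] at h1
  have e3 : 𝓕 (ch s f) x = ∑' k, 𝓕 (ch s (fk f k)) x := by
    simp only [Real.fourier_eq]
    exact h1.tsum_eq.symm
  rw [e3]
  exact enorm_tsum_le_tsum_enorm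

/-- a weighted Hoelder inequality for sums -/
lemma sum_pow (q c : ℝ) (hq : 1 < q) (hc : 0 < c) : ∃ C : ℝ≥0∞, C < ⊤ ∧ ∀ x : ℕ → ℝ≥0∞,
    (∑' k, x k) ^ q ≤ C * ∑' k, ENNReal.ofReal (((2:ℝ) ^ k) ^ c) * x k ^ q := by
  set p := q / (q - 1) with hp
  have hq0 : 0 < q := by linarith
  have hp0 : 0 < p := div_pos hq0 (by linarith)
  have hpq : p.HolderConjugate q := (Real.HolderConjugate.conjExponent hq).symm
  set r : ℝ := (2:ℝ) ^ (-(c / q)) with hr
  have hr0 : 0 < r := by positivity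
  set ρ : ℝ := r ^ p with hρ
  have hρ1 : ρ < 1 := by
    rw [hρ, hr, ← Real.rpow_mul (by norm_num)]
    apply Real.rpow_lt_one_of_one_lt_of_neg (by norm_num)
    have : 0 < c / q := by positivity
    nlinarith
  refine ⟨((1 - ENNReal.ofReal ρ)⁻¹ ^ (1 / p)) ^ q, ?_, fun x => ?_⟩
  · refine (ENNReal.rpow_ne_top_of_nonneg hq0.le (ENNReal.rpow_ne_top_of_nonneg
      (by positivity) ?_)).lt_top
    rw [ENNReal.inv_ne_top]
    have : ENNReal.ofReal ρ < 1 := by
      rw [← ENNReal.ofReal_one, ENNReal.ofReal_lt_ofReal_iff one_pos]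
      exact hρ1
    exact (tsub_pos_of_lt this).ne'
  have hH := ENNReal.lintegral_mul_le_Lp_mul_Lq (Measure.count : Measure ℕ) hpq
    (f := fun k => ENNReal.ofReal (r ^ k)) (g := fun k => (ENNReal.ofReal (r ^ k))⁻¹ * x k)
    (Measurable.of_discrete).aemeasurable (Measurable.of_discrete).aemeasurable
  rw [lintegral_count, lintegral_count, lintegral_count] at hH
  have e1 : ∀ k : ℕ, ((fun k : ℕ => ENNReal.ofReal (r ^ k)) *
      (fun k : ℕ => (ENNReal.ofReal (r ^ k))⁻¹ * x k)) k = x k := by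
    intro k
    simp only [Pi.mul_apply]
    rw [← mul_assoc, ENNReal.mul_inv_cancel, one_mul]
    · exact (ENNReal.ofReal_pos.2 (by positivity)).ne'
    · exact ENNReal.ofReal_ne_top
  simp only [e1] at hH
  have e2 : ∀ k : ℕ, ENNReal.ofReal (r ^ k) ^ p = ENNReal.ofReal ρ ^ k := by
    intro k
    rw [ENNReal.ofReal_rpow_of_pos (by positivity), ← ENNReal.ofReal_pow (by positivity), hρ,
      ← Real.rpow_natCast, ← Real.rpow_natCast, ← Real.rpow_mul hr0.le, ← Real.rpow_mul hr0.le]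
    congr 2
    ring
  have e3 : ∀ k : ℕ, ((ENNReal.ofReal (r ^ k))⁻¹ * x k) ^ q =
      ENNReal.ofReal (((2:ℝ) ^ k) ^ c) * x k ^ q := by
    intro k
    rw [ENNReal.mul_rpow_of_nonneg _ _ hq0.le, ← ENNReal.ofReal_inv_of_pos (by positivity),
      ENNReal.ofReal_rpow_of_pos (by positivity)]
    congr 2
    rw [hr, ← Real.rpow_natCast, ← Real.rpow_natCast, ← Real.rpow_mul (by norm_num),
      ← Real.rpow_neg (by norm_num), ← Real.rpow_mul (by norm_num), ← Real.rpow_mul (by norm_num)]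
    congr 1
    field_simp
  simp only [e2, e3, ENNReal.tsum_geometric] at hH
  calc (∑' k, x k) ^ q ≤ ((1 - ENNReal.ofReal ρ)⁻¹ ^ (1 / p) *
        (∑' k, ENNReal.ofReal (((2:ℝ) ^ k) ^ c) * x k ^ q) ^ (1 / q)) ^ q :=
        ENNReal.rpow_le_rpow hH hq0.le
    _ = _ := by
        rw [ENNReal.mul_rpow_of_nonneg _ _ hq0.le, ← ENNReal.rpow_mul _ (1 / q) q,
          one_div_mul_cancel hq0.ne', ENNReal.rpow_one]

end Pool.Agent.W777.ST
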