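import Mathlib
import Pool.Agent.W777.ST.B4
import Pool.Agent.W777.DL.Sob
set_option autoImplicit false

/-! Local constancy in the stretching parameter. -/

namespace Pool.Agent.W777.ST

open MeasureTheory Set Complex FourierTransform
open scoped ENNReal NNReal RealInnerProductSpace Topology
open Pool.Agent.H153R4
open Pool.Agent.W777.DL (sob add_pow4)

/-- the parameter as a vector -/
def ll (l : ℝ) : Fin 1 → ℝ := fun _ => l

lemma sv_ll (t l : ℝ) (z : E 2) :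
    ∑ j, sv (t, ll l) j * z j ^ 2 = t * z 0 ^ 2 + t * l * z 1 ^ 2 := by
  rw [Fin.sum_univ_two]
  rfl

/-- multiplication by the square of the second coordinate -/
noncomputable def g2 (g : E 2 → ℂ) (z : E 2) : ℂ := ((z 1 ^ 2 : ℝ) : ℂ) * g z

lemma g2_meas {g : E 2 → ℂ} (hg : Measurable g) : Measurable (g2 g) := by
  unfold g2
  exact (Complex.measurable_ofReal.comp (by fun_prop : Measurable fun z : E 2 => z 1 ^ 2)).mul hg

lemma g2_norm {M : ℝ} {g : E 2 → ℂ} (hg : BS M g) (z : E 2) : ‖g2 g z‖ ≤ ‖g z‖ := by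
  unfold g2
  by_cases hz : z ∈ cube 2
  · rw [norm_mul, Complex.norm_real, Real.norm_eq_abs, abs_of_nonneg (by positivity)]
    have h1 := hz 1
    have h2 : z 1 ^ 2 ≤ 1 := by
      rw [← sq_abs]
      exact pow_le_one₀ (abs_nonneg _) h1
    calc z 1 ^ 2 * ‖g z‖ ≤ 1 * ‖g z‖ := by gcongr
      _ = ‖g z‖ := one_mul _
  · rw [hg.supp z hz, mul_zero]

lemma g2_BS {M : ℝ} {g : E 2 → ℂ} (hg : BS M g) : BS M (g2 g) := by
  refine ⟨g2_meas hg.meas, fun z => (g2_norm hg z).trans (hg.bd z), fun z hz => ?_⟩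
  unfold g2
  rw [hg.supp z hz, mul_zero]

lemma g2_int {M : ℝ} {g : E 2 → ℂ} (hg : BS M g) :
    ∫⁻ z, ‖g2 g z‖ₑ ^ 4 ≤ ∫⁻ z, ‖g z‖ₑ ^ 4 := by
  apply lintegral_mono
  intro z
  apply pow_le_pow_left'
  rw [← ofReal_norm, ← ofReal_norm]
  exact ENNReal.ofReal_le_ofReal (g2_norm hg z)

lemma ch_deriv (t l : ℝ) (g : E 2 → ℂ) (z : E 2) :
    HasDerivAt (fun l => ch (sv (t, ll l)) g z)
      (((-(2 * Real.pi * t) : ℝ) : ℂ) * I * ch (sv (t, ll l)) (g2 g) z) l := by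
  have h1 : HasDerivAt (fun l : ℝ => -(2 * Real.pi * (t * z 0 ^ 2 + t * l * z 1 ^ 2)))
      (-(2 * Real.pi * (t * z 1 ^ 2))) l := by
    have h2 : HasDerivAt (fun l : ℝ => t * z 0 ^ 2 + t * l * z 1 ^ 2) (t * z 1 ^ 2) l := by
      have := (((hasDerivAt_id l).const_mul t).mul_const (z 1 ^ 2)).const_add (t * z 0 ^ 2)
      exact this.congr_deriv (by simp)
    exact (h2.const_mul (2 * Real.pi)).neg
  have h3 : HasDerivAt (fun l : ℝ => ((-(2 * Real.pi * (t * z 0 ^ 2 + t * l * z 1 ^ 2)) : ℝ) : ℂ) *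
      I) (((-(2 * Real.pi * (t * z 1 ^ 2)) : ℝ) : ℂ) * I) l := h1.ofReal_comp.mul_const I
  have h4 := h3.cexp.mul_const (g z)
  refine (h4.congr_of_eventuallyEq (Filter.Eventually.of_forall fun x => ?_)).congr_deriv ?_
  · simp only [ch]
    rw [sv_ll]
  · simp only [ch, g2]
    rw [sv_ll]
    push_cast
    ring

lemma F_smul (c : ℂ) (h : E 2 → ℂ) (x : E 2) : 𝓕 (fun z => c * h z) x = c * 𝓕 h x := by
  simp only [Real.fourier_eq]
  rw [← integral_const_mul]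
  apply integral_congr_ae
  refine ae_of_all _ fun z => ?_
  simp only [Circle.smul_def, smul_eq_mul]
  ring

lemma Fch_deriv (t l : ℝ) {M : ℝ} {g : E 2 → ℂ} (hg : BS M g) (x : E 2) :
    HasDerivAt (fun l => 𝓕 (ch (sv (t, ll l)) g) x)
      (((-(2 * Real.pi * t) : ℝ) : ℂ) * I * 𝓕 (ch (sv (t, ll l)) (g2 g)) x) l := by
  rw [← F_smul]
  simp only [Real.fourier_eq]
  have hg2 := g2_BS hg
  refine (hasDerivAt_integral_of_dominated_loc_of_deriv_le
    (F := fun l z => Real.fourierChar (-⟪z, x⟫) • ch (sv (t, ll l)) g z)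
    (F' := fun l z => Real.fourierChar (-⟪z, x⟫) •
      (((-(2 * Real.pi * t) : ℝ) : ℂ) * I * ch (sv (t, ll l)) (g2 g) z))
    (s := univ) (bound := (cube 2).indicator fun _ => 2 * Real.pi * |t| * M) Filter.univ_mem
    ?_ ?_ ?_ ?_ ?_ ?_).2
  · exact Filter.Eventually.of_forall fun y =>
      ((Real.fourierIntegral_convergent_iff (μ := volume) x).2 (hg.ch _).int).aestronglyMeasurable
  · exact (Real.fourierIntegral_convergent_iff (μ := volume) x).2 (hg.ch _).int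
  · have := ((Real.fourierIntegral_convergent_iff (μ := volume) x).2
      ((hg2.ch (sv (t, ll l))).int.const_mul (((-(2 * Real.pi * t) : ℝ) : ℂ) * I)))
    exact this.aestronglyMeasurable
  · refine ae_of_all _ fun z y _ => ?_
    rw [Circle.norm_smul, norm_mul, norm_mul, Complex.norm_I, mul_one, Complex.norm_real,
      ch_norm, Real.norm_eq_abs, abs_neg, abs_mul, abs_of_pos (by positivity : 0 < 2 * Real.pi)]
    by_cases hz : z ∈ cube 2
    · rw [indicator_of_mem hz]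
      have := hg2.bd z
      have := Real.pi_pos
      gcongr
    · rw [indicator_of_notMem hz, hg2.supp z hz, norm_zero, mul_zero]
  · rw [integrable_indicator_iff (cube_meas 2)]
    exact integrableOn_const (cube_vol 2).ne
  · refine ae_of_all _ fun z y _ => ?_
    simp only [Circle.smul_def, smul_eq_mul]
    exact (ch_deriv t y g z).const_mul _

/-- fourth moment in space -/
noncomputable def R4 (t l : ℝ) (g : E 2 → ℂ) : ℝ≥0∞ := ∫⁻ x, ‖𝓕 (ch (sv (t, ll l)) g) x‖ₑ ^ 4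

/-- fourth moment over a dyadic block -/
noncomputable def D (T l : ℝ) (g : E 2 → ℂ) : ℝ≥0∞ := ∫⁻ t in ST T, R4 t l g

lemma FA3 {g : E 2 → ℂ} (hg : Measurable g) :
    Measurable fun r : (ℝ × ℝ) × E 2 => 𝓕 (ch (sv (r.1.1, ll r.1.2)) g) r.2 := by
  have h := (meas_Fch (m := 1) hg).comp
    (f := fun r : (ℝ × ℝ) × E 2 => (((r.1.1, ll r.1.2) : ℝ × (Fin 1 → ℝ)), r.2))
    (by
      apply Measurable.prodMk
      · apply Measurable.prodMk (by fun_prop)
        rw [measurable_pi_iff]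
        intro j
        exact measurable_snd.comp measurable_fst
      · exact measurable_snd)
  exact h

lemma R4_meas {g : E 2 → ℂ} (hg : Measurable g) : Measurable fun r : ℝ × ℝ => R4 r.1 r.2 g :=
  ((FA3 hg).enorm.pow_const 4).lintegral_prod_right'

lemma D_meas (T : ℝ) {g : E 2 → ℂ} (hg : Measurable g) : Measurable fun l => D T l g := by
  have h : Measurable fun r : ℝ × ℝ => R4 r.2 r.1 g :=
    (R4_meas hg).comp (f := fun r : ℝ × ℝ => (r.2, r.1)) (by fun_prop)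
  exact h.lintegral_prod_right'

/-- the constant -/
noncomputable def cT : ℝ≥0∞ := 8 + 8 * ENNReal.ofReal (4 * Real.pi) ^ 4

lemma cT_lt : cT < ⊤ := by
  unfold cT
  exact ENNReal.add_lt_top.2 ⟨by norm_num,
    ENNReal.mul_lt_top (by norm_num) (ENNReal.pow_lt_top ENNReal.ofReal_lt_top)⟩

lemma sob_ch {t T M c d : ℝ} (hcd : c ≤ d) (hdT : (d - c) * T ≤ 1) (ht : |t| ≤ 2 * T)
    {g : E 2 → ℂ} (hg : BS M g) (x : E 2) (l1 : ℝ) (hl : l1 ∈ Icc c d) :
    ENNReal.ofReal (d - c) * ‖𝓕 (ch (sv (t, ll l1)) g) x‖ₑ ^ 4 ≤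
      cT * ∫⁻ s in Icc c d, (‖𝓕 (ch (sv (t, ll s)) g) x‖ₑ ^ 4 +
        ‖𝓕 (ch (sv (t, ll s)) (g2 g)) x‖ₑ ^ 4) := by
  have hg2 := g2_BS hg
  have c0 : Continuous fun s => 𝓕 (ch (sv (t, ll s)) g) x :=
    continuous_iff_continuousAt.2 fun s => (Fch_deriv t s hg x).continuousAt
  have c1 : Continuous fun s => 𝓕 (ch (sv (t, ll s)) (g2 g)) x :=
    continuous_iff_continuousAt.2 fun s => (Fch_deriv t s hg2 x).continuousAt
  have h1 := sob (c := c) (d := d) (fun s => 𝓕 (ch (sv (t, ll s)) g) x)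
    (fun s => ((-(2 * Real.pi * t) : ℝ) : ℂ) * I * 𝓕 (ch (sv (t, ll s)) (g2 g)) x)
    (fun s _ => Fch_deriv t s hg x) (continuous_const.mul c1).continuousOn l1 hl
  refine h1.trans ?_
  have m0 : Measurable fun s => ‖𝓕 (ch (sv (t, ll s)) g) x‖ₑ ^ 4 := c0.measurable.enorm.pow_const 4
  have m1 : Measurable fun s => ‖𝓕 (ch (sv (t, ll s)) (g2 g)) x‖ₑ ^ 4 :=
    c1.measurable.enorm.pow_const 4
  rw [lintegral_add_right _ m1]
  set I0 := ∫⁻ s in Icc c d, ‖𝓕 (ch (sv (t, ll s)) g) x‖ₑ ^ 4 with hI0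
  set I1 := ∫⁻ s in Icc c d, ‖𝓕 (ch (sv (t, ll s)) (g2 g)) x‖ₑ ^ 4 with hI1
  have hd0 : 0 ≤ d - c := by linarith
  have e1 : ∀ s, ‖((-(2 * Real.pi * t) : ℝ) : ℂ) * I * 𝓕 (ch (sv (t, ll s)) (g2 g)) x‖ₑ ^ 4 =
      ENNReal.ofReal (2 * Real.pi * |t|) ^ 4 * ‖𝓕 (ch (sv (t, ll s)) (g2 g)) x‖ₑ ^ 4 := by
    intro s
    rw [enorm_mul, mul_pow]
    congr 2
    rw [← ofReal_norm, norm_mul, Complex.norm_I, mul_one, Complex.norm_real, Real.norm_eq_abs,
      abs_neg, abs_mul, abs_of_pos (by positivity : 0 < 2 * Real.pi)]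
  simp only [e1]
  rw [lintegral_const_mul' _ _ (ENNReal.pow_ne_top ENNReal.ofReal_ne_top), ← hI1]
  have k1 : ENNReal.ofReal (d - c) ^ 4 * ENNReal.ofReal (2 * Real.pi * |t|) ^ 4 ≤
      ENNReal.ofReal (4 * Real.pi) ^ 4 := by
    rw [← mul_pow, ← ENNReal.ofReal_mul hd0]
    apply pow_le_pow_left'
    apply ENNReal.ofReal_le_ofReal
    have hpi := Real.pi_pos
    have h2 : (d - c) * |t| ≤ 2 := by nlinarith
    nlinarith
  calc 8 * I0 + 8 * (ENNReal.ofReal (d - c) ^ 4 * (ENNReal.ofReal (2 * Real.pi * |t|) ^ 4 * I1))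
      = 8 * I0 + 8 * ((ENNReal.ofReal (d - c) ^ 4 * ENNReal.ofReal (2 * Real.pi * |t|) ^ 4) * I1) := by
        ring
    _ ≤ 8 * I0 + 8 * (ENNReal.ofReal (4 * Real.pi) ^ 4 * I1) := by gcongr
    _ = 8 * I0 + (8 * ENNReal.ofReal (4 * Real.pi) ^ 4) * I1 := by ring
    _ ≤ cT * I0 + cT * I1 := by
        have n0 : 8 ≤ cT := by
          unfold cT
          exact le_self_add
        have n1 : 8 * ENNReal.ofReal (4 * Real.pi) ^ 4 ≤ cT := by
          unfold cT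
          exact le_add_self
        gcongr
    _ = cT * (I0 + I1) := by ring

lemma swap2 {X Y : Type*} [MeasurableSpace X] [MeasurableSpace Y] (μ : Measure X) (ν : Measure Y)
    [SFinite μ] [SFinite ν] (g0 g1 : X → Y → ℝ≥0∞)
    (h0 : Measurable (Function.uncurry g0)) (h1 : Measurable (Function.uncurry g1)) :
    ∫⁻ x, ∫⁻ y, (g0 x y + g1 x y) ∂ν ∂μ =
      ∫⁻ y, ((∫⁻ x, g0 x y ∂μ) + (∫⁻ x, g1 x y ∂μ)) ∂ν := by
  rw [lintegral_lintegral_swap (f := fun x y => g0 x y + g1 x y) (h0.add h1).aemeasurable]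
  apply lintegral_congr
  intro y
  have q1 : Measurable fun x => g1 x y := h1.comp (f := fun x => (x, y)) (by fun_prop)
  rw [lintegral_add_right _ q1]

lemma FB {g : E 2 → ℂ} (hg : Measurable g) (t : ℝ) :
    Measurable (Function.uncurry fun (x : E 2) (s : ℝ) => ‖𝓕 (ch (sv (t, ll s)) g) x‖ₑ ^ 4) := by
  have h := (FA3 hg).comp
    (f := fun r : E 2 × ℝ => (((t, r.2) : ℝ × ℝ), r.1)) (by fun_prop)
  exact h.enorm.pow_const 4

lemma R4_loc {T M c d : ℝ} (hcd : c ≤ d) (hdT : (d - c) * T ≤ 1) {g : E 2 → ℂ} (hg : BS M g)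
    (l1 : ℝ) (hl : l1 ∈ Icc c d) (t : ℝ) (ht : t ∈ ST T) : ENNReal.ofReal (d - c) * R4 t l1 g ≤
      cT * ∫⁻ s in Icc c d, (R4 t s g + R4 t s (g2 g)) := by
  have hB := fun x => sob_ch hcd hdT ht.2 hg x l1 hl
  have h1 : ENNReal.ofReal (d - c) * R4 t l1 g =
      ∫⁻ x, ENNReal.ofReal (d - c) * ‖𝓕 (ch (sv (t, ll l1)) g) x‖ₑ ^ 4 := by
    unfold R4
    rw [lintegral_const_mul' _ _ ENNReal.ofReal_ne_top]
  rw [h1]
  refine (lintegral_mono hB).trans ?_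
  rw [lintegral_const_mul' _ _ cT_lt.ne]
  refine mul_le_mul' le_rfl ?_
  exact (swap2 volume (volume.restrict (Icc c d)) _ _ (FB hg.meas t)
    (FB (g2_meas hg.meas) t)).le

/-- the majorant -/
noncomputable def Z (T l : ℝ) (g : E 2 → ℂ) : ℝ≥0∞ := D T l g + D T l (g2 g)

theorem D_loc {T M c d : ℝ} (hcd : c ≤ d) (hdT : (d - c) * T ≤ 1) {g : E 2 → ℂ} (hg : BS M g)
    (l1 : ℝ) (hl : l1 ∈ Icc c d) :
    ENNReal.ofReal (d - c) * D T l1 g ≤ cT * ∫⁻ s in Icc c d, Z T s g := by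
  have h1 : ENNReal.ofReal (d - c) * D T l1 g =
      ∫⁻ t in ST T, ENNReal.ofReal (d - c) * R4 t l1 g := by
    unfold D
    rw [lintegral_const_mul' _ _ ENNReal.ofReal_ne_top]
  rw [h1]
  refine (setLIntegral_mono' (ST_meas T) (fun t ht => R4_loc hcd hdT hg l1 hl t ht)).trans ?_
  rw [lintegral_const_mul' _ _ cT_lt.ne]
  refine mul_le_mul' le_rfl ?_
  have hu : ∀ {g : E 2 → ℂ}, Measurable g →
      Measurable (Function.uncurry fun (t s : ℝ) => R4 t s g) := by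
    intro g hg
    exact R4_meas hg
  exact (swap2 (volume.restrict (ST T)) (volume.restrict (Icc c d)) _ _ (hu hg.meas)
    (hu (g2_meas hg.meas))).le

/-- the averaged bound -/
theorem D_avg {β : ℝ} (hβ0 : 0 ≤ β) (hβ1 : β ≤ 1) {T M : ℝ} (hT : 1 ≤ T) {g : E 2 → ℂ}
    (hg : BS M g) : ∫⁻ l in Icc (0:ℝ) 1, D T l g ≤
      ENNReal.ofReal (KT 1 1 1 1 T β) * J4 2 β * ∫⁻ z, ‖g z‖ₑ ^ 4 := by
  have hμ : ∀ (a : Fin 1 → ℝ) (r : ℝ), 0 < r → r ≤ 1 →
      (volume : Measure (Fin 1 → ℝ)) (Icc a (fun j => a j + r)) ≤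
        ENNReal.ofReal (1 * r ^ (1:ℝ)) := by
    intro a r h0 h1
    rw [Real.volume_Icc_pi]
    simp
  have hb := block4s (m := 1) volume 1 1 1 T β zero_le_one le_rfl hT hμ hβ0 hβ1 hg
  refine le_trans ?_ hb
  have hm : Measurable fun p : ℝ × (Fin 1 → ℝ) => ∫⁻ x, ‖𝓕 (ch (sv p) g) x‖ₑ ^ 4 :=
    ((meas_Fch (m := 1) hg.meas).enorm.pow_const 4).lintegral_prod_right'
  rw [lintegral_prod_symm _ hm.aemeasurable]
  have hmp := (volume_preserving_funUnique (Fin 1) ℝ).symm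
  have hD : Measurable fun v : Fin 1 → ℝ => ∫⁻ t in ST T, ∫⁻ x, ‖𝓕 (ch (sv (t, v)) g) x‖ₑ ^ 4 := by
    have := hm.comp measurable_swap
    exact this.lintegral_prod_right'
  have e1 : ∫⁻ l in Icc (0:ℝ) 1, D T l g ≤ ∫⁻ l in Icc (-1:ℝ) 1, D T l g :=
    lintegral_mono_set (Icc_subset_Icc (by norm_num) le_rfl)
  refine e1.trans (le_of_eq ?_)
  have hS : MeasurableSet (Icc (fun _ : Fin 1 => (-1:ℝ)) (fun _ => 1)) := measurableSet_Icc
  have key := hmp.lintegral_comp (hD.indicator hS)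
  rw [← lintegral_indicator hS, ← lintegral_indicator measurableSet_Icc]
  refine Eq.trans ?_ key
  apply lintegral_congr
  intro l
  have e2 : ((MeasurableEquiv.funUnique (Fin 1) ℝ).symm l : Fin 1 → ℝ) = ll l := rfl
  rw [e2]
  by_cases hl : l ∈ Icc (-1:ℝ) 1
  · have hl2 : ll l ∈ Icc (fun _ : Fin 1 => (-1:ℝ)) (fun _ => 1) := ⟨fun _ => hl.1, fun _ => hl.2⟩
    rw [indicator_of_mem hl, indicator_of_mem hl2]
    rfl
  · have hl2 : ll l ∉ Icc (fun _ : Fin 1 => (-1:ℝ)) (fun _ => 1) :=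
      fun h => hl ⟨h.1 0, h.2 0⟩
    rw [indicator_of_notMem hl, indicator_of_notMem hl2]

end Pool.Agent.W777.ST
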