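import Mathlib
import Pool.Agent.W777.ST.Loc
import Pool.Agent.W777.ST.Lev
import Pool.Agent.W777.DL.Lq
set_option autoImplicit false

/-! The exceptional stretchings. -/

namespace Pool.Agent.W777.ST

open MeasureTheory Set Complex FourierTransform Filter
open scoped ENNReal NNReal RealInnerProductSpace Topology
open Pool.Agent.H153R4
open Pool.Agent.W777.DL (dim_bound cover_ST)

/-- integral of the q-th power -/
noncomputable def GG (q l : ℝ) (S : Set ℝ) (g : E 2 → ℂ) : ℝ≥0∞ :=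
  ∫⁻ t in S, ∫⁻ x, ‖𝓕 (ch (sv (t, ll l)) g) x‖ₑ ^ q

lemma FL_meas (l : ℝ) {g : E 2 → ℂ} (hg : Measurable g) :
    Measurable fun r : ℝ × E 2 => 𝓕 (ch (sv (r.1, ll l)) g) r.2 :=
  (FA3 hg).comp (f := fun r : ℝ × E 2 => (((r.1, l) : ℝ × ℝ), r.2)) (by fun_prop)

lemma GG_interp {q l T M : ℝ} (hq2 : 2 ≤ q) (hq4 : q ≤ 4) (hT : 0 ≤ T) {g : E 2 → ℂ}
    (hg : BS M g) : GG q l (ST T) g ≤
      (ENNReal.ofReal (2 * T) * ∫⁻ z, ‖g z‖ₑ ^ 2) ^ ((4 - q) / 2) * D T l g ^ ((q - 2) / 2) := by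
  have hm := (FL_meas l hg.meas).enorm
  have h := interp ((volume.restrict (ST T)).prod (volume : Measure (E 2))) _ hm q hq2 hq4
  rw [lintegral_prod _ (hm.pow_const q).aemeasurable,
    lintegral_prod _ (hm.pow_const 2).aemeasurable,
    lintegral_prod _ (hm.pow_const 4).aemeasurable] at h
  refine h.trans ?_
  have e4 : ∫⁻ t in ST T, ∫⁻ x, ‖𝓕 (ch (sv (t, ll l)) g) x‖ₑ ^ 4 = D T l g := rfl
  simp only
  rw [e4]
  refine mul_le_mul' (ENNReal.rpow_le_rpow ?_ (by linarith)) le_rfl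
  simp only [two_ch hg]
  rw [lintegral_const, Measure.restrict_apply_univ, mul_comm]
  gcongr
  exact ST_vol T hT

lemma GG_triv {q l M : ℝ} (hq2 : 2 ≤ q) (S : Set ℝ) {g : E 2 → ℂ} (hg : BS M g) :
    GG q l S g ≤ (∫⁻ z, ‖g z‖ₑ) ^ (q - 2) * (volume S * ∫⁻ z, ‖g z‖ₑ ^ 2) := by
  have hpt : ∀ t, ∫⁻ x, ‖𝓕 (ch (sv (t, ll l)) g) x‖ₑ ^ q ≤
      (∫⁻ z, ‖g z‖ₑ) ^ (q - 2) * ∫⁻ z, ‖g z‖ₑ ^ 2 := by
    intro t
    have hsup : ∀ x, ‖𝓕 (ch (sv (t, ll l)) g) x‖ₑ ≤ ∫⁻ z, ‖g z‖ₑ := by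
      intro x
      rw [Real.fourier_eq]
      refine (enorm_integral_le_lintegral_enorm _).trans (le_of_eq ?_)
      apply lintegral_congr
      intro z
      rw [← ofReal_norm, Circle.norm_smul, ofReal_norm, ch_enorm]
    rw [← two_ch hg (sv (t, ll l)), ← lintegral_const_mul]
    · apply lintegral_mono
      intro x
      simp only
      have e1 : ‖𝓕 (ch (sv (t, ll l)) g) x‖ₑ ^ q =
          ‖𝓕 (ch (sv (t, ll l)) g) x‖ₑ ^ (q - 2) * ‖𝓕 (ch (sv (t, ll l)) g) x‖ₑ ^ 2 := by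
        rw [← ENNReal.rpow_natCast, ← ENNReal.rpow_add_of_nonneg _ _ (by linarith) (by norm_num)]
        congr 1
        push_cast
        ring
      rw [e1]
      exact mul_le_mul' (ENNReal.rpow_le_rpow (hsup x) (by linarith)) le_rfl
    · exact (((FL_meas l hg.meas).comp (f := fun x => (t, x)) (by fun_prop)).enorm).pow_const 2
  unfold GG
  refine (lintegral_mono hpt).trans (le_of_eq ?_)
  rw [lintegral_const, Measure.restrict_apply_univ]
  ring

lemma geo_mean {N : ℝ≥0∞} {a b η : ℝ} (ha : 0 < a) (hb : 0 < b) (hη0 : 0 ≤ η) (hη1 : η ≤ 1)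
    (h1 : N ≤ ENNReal.ofReal a) (h2 : N ≤ ENNReal.ofReal b) :
    N ≤ ENNReal.ofReal (a ^ (1 - η) * b ^ η) := by
  have e1 : N = N ^ (1 - η) * N ^ η := by
    rw [← ENNReal.rpow_add_of_nonneg _ _ (by linarith) hη0]
    simp
  rw [e1, ENNReal.ofReal_mul (by positivity), ← ENNReal.ofReal_rpow_of_pos ha,
    ← ENNReal.ofReal_rpow_of_pos hb]
  exact mul_le_mul' (ENNReal.rpow_le_rpow h1 (by linarith)) (ENNReal.rpow_le_rpow h2 hη0)

/-- the constant -/
noncomputable def Kc (v q η : ℝ) : ℝ := ((2 * v) ^ ((4 - q) / 2)) ^ (1 - η) * (2 * v ^ (q - 1)) ^ η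

lemma Kc_pos {v : ℝ} (hv : 0 < v) (q η : ℝ) : 0 < Kc v q η := by
  unfold Kc
  positivity

/-- The real number inequality. -/
lemma real_ineq {v q γ δ η T X : ℝ} (hv : 0 < v) (hq3 : 3 ≤ q)
    (hδ : δ = γ * ((q - 2) / 2) - (4 - q) / 2) (hδ0 : 0 < δ) (hη : η = δ / (2 * (1 + δ)))
    (hT : 0 < T) (hX : 1 ≤ X) :
    ((2 * T * (X ^ (2 - q) * v)) ^ ((4 - q) / 2) *
      (X ^ (4 - q + η) * T ^ (-γ)) ^ ((q - 2) / 2)) ^ (1 - η) *
      ((X ^ (1 - q) * v) ^ (q - 2) * (2 * T * (X ^ (2 - q) * v))) ^ η ≤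
      Kc v q η * T ^ (-(δ / 2)) * X ^ (-(2 * η)) := by
  have hX0 : 0 < X := by linarith
  have hη0 : 0 < η := by rw [hη]; positivity
  have hη1 : η < 1 := by
    rw [hη, div_lt_one (by positivity)]
    linarith
  have a1 : (2 * T * (X ^ (2 - q) * v)) ^ ((4 - q) / 2) =
      (2 * v) ^ ((4 - q) / 2) * T ^ ((4 - q) / 2) * X ^ ((2 - q) * ((4 - q) / 2)) := by
    rw [show 2 * T * (X ^ (2 - q) * v) = (2 * v) * T * X ^ (2 - q) by ring,
      Real.mul_rpow (by positivity) (by positivity), Real.mul_rpow (by positivity) hT.le,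
      ← Real.rpow_mul hX0.le]
  have a2 : (X ^ (4 - q + η) * T ^ (-γ)) ^ ((q - 2) / 2) =
      X ^ ((4 - q + η) * ((q - 2) / 2)) * T ^ (-γ * ((q - 2) / 2)) := by
    rw [Real.mul_rpow (by positivity) (by positivity), ← Real.rpow_mul hX0.le,
      ← Real.rpow_mul hT.le]
  have a3 : (2 * T * (X ^ (2 - q) * v)) ^ ((4 - q) / 2) *
      (X ^ (4 - q + η) * T ^ (-γ)) ^ ((q - 2) / 2) =
      (2 * v) ^ ((4 - q) / 2) * T ^ (-δ) * X ^ (η * ((q - 2) / 2)) := by
    rw [a1, a2]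
    have b1 : T ^ (-δ) = T ^ ((4 - q) / 2) * T ^ (-γ * ((q - 2) / 2)) := by
      rw [← Real.rpow_add hT]
      congr 1
      rw [hδ]
      ring
    have b2 : X ^ (η * ((q - 2) / 2)) = X ^ ((2 - q) * ((4 - q) / 2)) *
        X ^ ((4 - q + η) * ((q - 2) / 2)) := by
      rw [← Real.rpow_add hX0]
      congr 1
      ring
    rw [b1, b2]
    ring
  have a4 : (X ^ (1 - q) * v) ^ (q - 2) * (2 * T * (X ^ (2 - q) * v)) =
      (2 * v ^ (q - 1)) * T * X ^ (-(q * (q - 2))) := by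
    rw [Real.mul_rpow (by positivity) hv.le, ← Real.rpow_mul hX0.le]
    have b1 : v ^ (q - 1) = v ^ (q - 2) * v := by
      rw [show q - 1 = (q - 2) + 1 by ring, Real.rpow_add hv, Real.rpow_one]
    have b2 : X ^ (-(q * (q - 2))) = X ^ ((1 - q) * (q - 2)) * X ^ (2 - q) := by
      rw [← Real.rpow_add hX0]
      congr 1
      ring
    rw [b1, b2]
    ring
  rw [a3, a4]
  have c1 : ((2 * v) ^ ((4 - q) / 2) * T ^ (-δ) * X ^ (η * ((q - 2) / 2))) ^ (1 - η) =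
      ((2 * v) ^ ((4 - q) / 2)) ^ (1 - η) * T ^ (-δ * (1 - η)) *
        X ^ (η * ((q - 2) / 2) * (1 - η)) := by
    rw [Real.mul_rpow (by positivity) (by positivity), Real.mul_rpow (by positivity)
      (by positivity), ← Real.rpow_mul hT.le, ← Real.rpow_mul hX0.le]
  have c2 : ((2 * v ^ (q - 1)) * T * X ^ (-(q * (q - 2)))) ^ η =
      (2 * v ^ (q - 1)) ^ η * T ^ η * X ^ (-(q * (q - 2)) * η) := by
    rw [Real.mul_rpow (by positivity) (by positivity), Real.mul_rpow (by positivity) hT.le,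
      ← Real.rpow_mul hX0.le]
  rw [c1, c2]
  have c3 : T ^ (-δ * (1 - η)) * T ^ η = T ^ (-(δ / 2)) := by
    rw [← Real.rpow_add hT]
    congr 1
    rw [hη]
    field_simp
    ring
  have c4 : X ^ (η * ((q - 2) / 2) * (1 - η)) * X ^ (-(q * (q - 2)) * η) ≤ X ^ (-(2 * η)) := by
    rw [← Real.rpow_add hX0]
    apply Real.rpow_le_rpow_of_exponent_le hX
    have h1 : 1 ≤ q - 2 := by linarith
    have h2 : 0 ≤ η * (q - 2) := by positivity
    have h3 : (1 - η) / 2 - q ≤ -2 := by linarith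
    have h4 : η * (q - 2) * ((1 - η) / 2 - q) ≤ η * (q - 2) * (-2) :=
      mul_le_mul_of_nonneg_left h3 h2
    have h5 : η * (q - 2) * (-2) ≤ -(2 * η) := by nlinarith
    calc η * ((q - 2) / 2) * (1 - η) + -(q * (q - 2)) * η = η * (q - 2) * ((1 - η) / 2 - q) := by
          ring
      _ ≤ _ := h4.trans h5
  calc ((2 * v) ^ ((4 - q) / 2)) ^ (1 - η) * T ^ (-δ * (1 - η)) *
        X ^ (η * ((q - 2) / 2) * (1 - η)) *
        ((2 * v ^ (q - 1)) ^ η * T ^ η * X ^ (-(q * (q - 2)) * η))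
      = Kc v q η * (T ^ (-δ * (1 - η)) * T ^ η) *
        (X ^ (η * ((q - 2) / 2) * (1 - η)) * X ^ (-(q * (q - 2)) * η)) := by
        unfold Kc
        ring
    _ ≤ _ := by
        rw [c3]
        have := (Kc_pos hv q η).le
        gcongr

/-- the splitting into level sets -/
lemma GG_sum {q c : ℝ} (hq : 1 < q) (hc : 0 < c) : ∃ C : ℝ≥0∞, C < ⊤ ∧
    ∀ (f : E 2 → ℂ), Measurable f → (∀ z, z ∉ cube 2 → f z = 0) → VV q f ≠ ⊤ →
      ∀ (l : ℝ) (S : Set ℝ), GG q l S f ≤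
        C * ∑' k, ENNReal.ofReal (((2:ℝ) ^ k) ^ c) * GG q l S (fk f k) := by
  obtain ⟨C, hC, h⟩ := sum_pow q c hq hc
  refine ⟨C, hC, fun f hf hs hV l S => ?_⟩
  have hm : ∀ k, Measurable fun r : ℝ × E 2 => ‖𝓕 (ch (sv (r.1, ll l)) (fk f k)) r.2‖ₑ ^ q :=
    fun k => (FL_meas l (fk_meas hf k)).enorm.pow_const q
  have hm2 : ∀ k, Measurable fun t => ∫⁻ x, ‖𝓕 (ch (sv (t, ll l)) (fk f k)) x‖ₑ ^ q :=
    fun k => (hm k).lintegral_prod_right'
  have hm3 : ∀ k (t : ℝ), Measurable fun x => ‖𝓕 (ch (sv (t, ll l)) (fk f k)) x‖ₑ ^ q :=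
    fun k t => (hm k).comp (f := fun x => (t, x)) (by fun_prop)
  have hpt : ∀ (t : ℝ) (x : E 2), ‖𝓕 (ch (sv (t, ll l)) f) x‖ₑ ^ q ≤
      C * ∑' k, ENNReal.ofReal (((2:ℝ) ^ k) ^ c) * ‖𝓕 (ch (sv (t, ll l)) (fk f k)) x‖ₑ ^ q := by
    intro t x
    exact (ENNReal.rpow_le_rpow (F_sum hf hs hq hV (sv (t, ll l)) x) (by linarith)).trans (h _)
  have hin : ∀ t, ∫⁻ x, ‖𝓕 (ch (sv (t, ll l)) f) x‖ₑ ^ q ≤
      C * ∑' k, ENNReal.ofReal (((2:ℝ) ^ k) ^ c) *
        ∫⁻ x, ‖𝓕 (ch (sv (t, ll l)) (fk f k)) x‖ₑ ^ q := by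
    intro t
    refine (lintegral_mono (hpt t)).trans (le_of_eq ?_)
    rw [lintegral_const_mul' _ _ hC.ne, lintegral_tsum fun k =>
      ((hm3 k t).const_mul _).aemeasurable]
    congr 1
    apply tsum_congr
    intro k
    rw [lintegral_const_mul' _ _ ENNReal.ofReal_ne_top]
  unfold GG
  refine (lintegral_mono hin).trans (le_of_eq ?_)
  rw [lintegral_const_mul' _ _ hC.ne, lintegral_tsum fun k =>
      ((hm2 k).const_mul _).aemeasurable]
  congr 1
  apply tsum_congr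
  intro k
  rw [lintegral_const_mul' _ _ ENNReal.ofReal_ne_top]

lemma Xgeo (k : ℕ) (c : ℝ) : ((2:ℝ) ^ k) ^ c = ((2:ℝ) ^ c) ^ k := by
  rw [← Real.rpow_natCast, ← Real.rpow_natCast, ← Real.rpow_mul (by norm_num),
    ← Real.rpow_mul (by norm_num), mul_comm]

lemma geo_sum {c : ℝ} (hc : c < 0) : ∑' k : ℕ, ENNReal.ofReal (((2:ℝ) ^ k) ^ c) < ⊤ := by
  have h1 : ∀ k : ℕ, ENNReal.ofReal (((2:ℝ) ^ k) ^ c) = ENNReal.ofReal ((2:ℝ) ^ c) ^ k := by
    intro k
    rw [Xgeo, ENNReal.ofReal_pow (by positivity)]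
  simp only [h1]
  rw [ENNReal.tsum_geometric, ENNReal.inv_lt_top, tsub_pos_iff_lt, ← ENNReal.ofReal_one,
    ENNReal.ofReal_lt_ofReal_iff one_pos]
  exact Real.rpow_lt_one_of_one_lt_of_neg (by norm_num) hc

/-- weights -/
noncomputable def W (q ε : ℝ) (k : ℕ) : ℝ≥0∞ := ENNReal.ofReal (((2:ℝ) ^ k) ^ (-(4 - q + ε)))

lemma W_ne (q ε : ℝ) (k : ℕ) : W q ε k ≠ ⊤ := ENNReal.ofReal_ne_top

/-- the weighted sum of the fourth moments -/
noncomputable def DD (q ε : ℝ) (f : E 2 → ℂ) (T l : ℝ) : ℝ≥0∞ := ∑' k, W q ε k * D T l (fk f k)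

/-- the weighted sum of the majorants -/
noncomputable def ZZ (q ε : ℝ) (f : E 2 → ℂ) (T l : ℝ) : ℝ≥0∞ := ∑' k, W q ε k * Z T l (fk f k)

lemma Z_meas (T : ℝ) {g : E 2 → ℂ} (hg : Measurable g) : Measurable fun l => Z T l g := by
  unfold Z
  exact (D_meas T hg).add (D_meas T (g2_meas hg))

theorem DD_loc {q ε T c d : ℝ} (hcd : c ≤ d) (hdT : (d - c) * T ≤ 1) {f : E 2 → ℂ}
    (hf : Measurable f) (hs : ∀ z, z ∉ cube 2 → f z = 0) (l1 : ℝ) (hl : l1 ∈ Icc c d) :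
    ENNReal.ofReal (d - c) * DD q ε f T l1 ≤ cT * ∫⁻ s in Icc c d, ZZ q ε f T s := by
  unfold DD ZZ
  rw [lintegral_tsum fun k => ((Z_meas T (fk_meas hf k)).const_mul _).aemeasurable,
    ← ENNReal.tsum_mul_left, ← ENNReal.tsum_mul_left]
  apply ENNReal.tsum_le_tsum
  intro k
  rw [lintegral_const_mul' _ _ (W_ne q ε k)]
  have h := D_loc hcd hdT (fk_BS hf hs k) l1 hl
  calc ENNReal.ofReal (d - c) * (W q ε k * D T l1 (fk f k)) =
        W q ε k * (ENNReal.ofReal (d - c) * D T l1 (fk f k)) := by ring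
    _ ≤ W q ε k * (cT * ∫⁻ s in Icc c d, Z T s (fk f k)) := by gcongr
    _ = _ := by
        unfold W
        ring

theorem ZZ_avg {q ε β : ℝ} (hε : 0 < ε) (hβ0 : 0 < β) (hβ1 : β ≤ 1) (hq : 0 ≤ q) :
    ∃ C : ℝ≥0∞, C < ⊤ ∧ ∀ (f : E 2 → ℂ), Measurable f → (∀ z, z ∉ cube 2 → f z = 0) →
      ∀ T : ℝ, 1 ≤ T → ∫⁻ l in Icc (0:ℝ) 1, ZZ q ε f T l ≤
        C * VV q f * ENNReal.ofReal (T ^ (2 * β - 1)) := by
  refine ⟨2 * ENNReal.ofReal (2 * cL 1) * J4 2 β * ∑' k : ℕ, ENNReal.ofReal (((2:ℝ) ^ k) ^ (-ε)),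
    ?_, fun f hf hs T hT => ?_⟩
  · exact ENNReal.mul_lt_top (ENNReal.mul_lt_top (ENNReal.mul_lt_top (by norm_num)
      ENNReal.ofReal_lt_top) (J4_fin 2 β hβ0)) (geo_sum (by linarith))
  have hT0 : 0 < T := by linarith
  have hcL : 0 < cL 1 := by unfold cL; positivity
  have hKT : KT 1 1 1 1 T β = 2 * cL 1 * T ^ (2 * β - 1) := by
    unfold KT
    rw [pow_one]
    have e1 : T ^ (2 * β - 1) = T ^ β * T ^ (-1 : ℝ) * T ^ β := by
      rw [← Real.rpow_add hT0, ← Real.rpow_add hT0]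
      congr 1
      ring
    rw [e1]
    ring
  unfold ZZ
  rw [lintegral_tsum fun k => ((Z_meas T (fk_meas hf k)).const_mul _).aemeasurable]
  have hk : ∀ k, ∫⁻ l in Icc (0:ℝ) 1, W q ε k * Z T l (fk f k) ≤
      ENNReal.ofReal (((2:ℝ) ^ k) ^ (-ε)) * (2 * ENNReal.ofReal (2 * cL 1) * J4 2 β * VV q f *
        ENNReal.ofReal (T ^ (2 * β - 1))) := by
    intro k
    have hBS := fk_BS hf hs k
    have h4 : ∫⁻ z, ‖fk f k z‖ₑ ^ 4 ≤ ENNReal.ofReal (((2:ℝ) ^ k) ^ (4 - q)) * VV q f := by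
      have := fk_int hs hq 4 (by norm_num) k
      push_cast at this
      exact this
    have hZ : ∫⁻ l in Icc (0:ℝ) 1, Z T l (fk f k) ≤
        2 * (ENNReal.ofReal (KT 1 1 1 1 T β) * J4 2 β * ∫⁻ z, ‖fk f k z‖ₑ ^ 4) := by
      unfold Z
      rw [lintegral_add_left (D_meas T hBS.meas), two_mul]
      refine add_le_add (D_avg hβ0.le hβ1 hT hBS) ?_
      refine (D_avg hβ0.le hβ1 hT (g2_BS hBS)).trans ?_
      exact mul_le_mul' le_rfl (g2_int hBS)
    rw [lintegral_const_mul' _ _ (W_ne q ε k)]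
    have hW : W q ε k * ENNReal.ofReal (((2:ℝ) ^ k) ^ (4 - q)) =
        ENNReal.ofReal (((2:ℝ) ^ k) ^ (-ε)) := by
      unfold W
      rw [← ENNReal.ofReal_mul (by positivity), ← Real.rpow_add (by positivity)]
      congr 2
      ring
    calc W q ε k * ∫⁻ l in Icc (0:ℝ) 1, Z T l (fk f k)
        ≤ W q ε k * (2 * (ENNReal.ofReal (KT 1 1 1 1 T β) * J4 2 β *
          (ENNReal.ofReal (((2:ℝ) ^ k) ^ (4 - q)) * VV q f))) :=
          mul_le_mul' le_rfl (hZ.trans (mul_le_mul' le_rfl (mul_le_mul' le_rfl h4)))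
      _ = (W q ε k * ENNReal.ofReal (((2:ℝ) ^ k) ^ (4 - q))) *
          (2 * ENNReal.ofReal (KT 1 1 1 1 T β) * J4 2 β * VV q f) := by ring
      _ = _ := by
          rw [hW, hKT, ENNReal.ofReal_mul (by positivity)]
          ring
  refine (ENNReal.tsum_le_tsum hk).trans (le_of_eq ?_)
  rw [ENNReal.tsum_mul_right]
  ring

/-- integrability at good parameters -/
theorem good_fin {q γ δ η l : ℝ} (hq3 : 3 ≤ q) (hq4 : q ≤ 4)
    (hδ : δ = γ * ((q - 2) / 2) - (4 - q) / 2) (hδ0 : 0 < δ) (hη : η = δ / (2 * (1 + δ)))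
    {f : E 2 → ℂ} (hf : Measurable f) (hs : ∀ z, z ∉ cube 2 → f z = 0) (hV : VV q f ≠ ⊤)
    (hD : ∀ᶠ j : ℕ in atTop, DD q η f ((2 ^ j : ℕ) : ℝ) l ≤
      ENNReal.ofReal (((2 ^ j : ℕ) : ℝ) ^ (-γ))) : GG q l univ f < ⊤ := by
  have hη0 : 0 < η := by rw [hη]; positivity
  have hη1 : η < 1 / 2 := by
    rw [hη, div_lt_div_iff₀ (by positivity) (by norm_num)]
    linarith
  obtain ⟨C, hC, hsum⟩ := GG_sum (q := q) (c := η) (by linarith) hη0
  obtain ⟨J, hJ⟩ := eventually_atTop.1 hD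
  set v : ℝ := (VV q f).toReal + 1 with hv
  have hv0 : 0 < v := by
    have : 0 ≤ (VV q f).toReal := ENNReal.toReal_nonneg
    linarith
  have hVv : VV q f ≤ ENNReal.ofReal v := by
    rw [hv, ← ENNReal.ofReal_toReal hV]
    apply ENNReal.ofReal_le_ofReal
    rw [ENNReal.toReal_ofReal ENNReal.toReal_nonneg]
    linarith
  have hX : ∀ k : ℕ, (1:ℝ) ≤ (2:ℝ) ^ k := fun k => one_le_pow₀ (by norm_num)
  have m1 : ∀ k, ∫⁻ z, ‖fk f k z‖ₑ ≤ ENNReal.ofReal (((2:ℝ) ^ k) ^ (1 - q) * v) := by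
    intro k
    have h := fk_int hs (by linarith : 0 ≤ q) 1 one_pos k
    simp only [pow_one] at h
    push_cast at h
    rw [ENNReal.ofReal_mul (by positivity)]
    exact h.trans (mul_le_mul' le_rfl hVv)
  have m2 : ∀ k, ∫⁻ z, ‖fk f k z‖ₑ ^ 2 ≤ ENNReal.ofReal (((2:ℝ) ^ k) ^ (2 - q) * v) := by
    intro k
    have h := fk_int hs (by linarith : 0 ≤ q) 2 two_pos k
    push_cast at h
    rw [ENNReal.ofReal_mul (by positivity)]
    exact h.trans (mul_le_mul' le_rfl hVv)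
  -- the trivial bound
  have hB : ∀ (k : ℕ) (τ : ℝ) (S : Set ℝ), 0 < τ → volume S ≤ ENNReal.ofReal (2 * τ) →
      GG q l S (fk f k) ≤ ENNReal.ofReal ((((2:ℝ) ^ k) ^ (1 - q) * v) ^ (q - 2) *
        (2 * τ * (((2:ℝ) ^ k) ^ (2 - q) * v))) := by
    intro k τ S hτ hS
    refine (GG_triv (by linarith) S (fk_BS hf hs k)).trans ?_
    rw [ENNReal.ofReal_mul (by positivity), ← ENNReal.ofReal_rpow_of_nonneg (by positivity)
      (by linarith), ENNReal.ofReal_mul (p := 2 * τ) (by positivity)]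
    exact mul_le_mul' (ENNReal.rpow_le_rpow (m1 k) (by linarith)) (mul_le_mul' hS (m2 k))
  -- finiteness for sets of finite measure
  have hfin : ∀ (τ : ℝ) (S : Set ℝ), 0 < τ → volume S ≤ ENNReal.ofReal (2 * τ) →
      GG q l S f < ⊤ := by
    intro τ S hτ hS
    refine lt_of_le_of_lt (hsum f hf hs hV l S) (ENNReal.mul_lt_top hC ?_)
    have hk : ∀ k : ℕ, ENNReal.ofReal (((2:ℝ) ^ k) ^ η) * GG q l S (fk f k) ≤
        ENNReal.ofReal (((2:ℝ) ^ k) ^ (-(1:ℝ))) * ENNReal.ofReal (2 * τ * v ^ (q - 1)) := by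
      intro k
      refine (mul_le_mul' le_rfl (hB k τ S hτ hS)).trans ?_
      rw [← ENNReal.ofReal_mul (by positivity), ← ENNReal.ofReal_mul (by positivity)]
      apply ENNReal.ofReal_le_ofReal
      set X : ℝ := (2:ℝ) ^ k with hXd
      have hX0 : 0 < X := by positivity
      have b1 : v ^ (q - 1) = v ^ (q - 2) * v := by
        rw [show q - 1 = (q - 2) + 1 by ring, Real.rpow_add hv0, Real.rpow_one]
      have e1 : X ^ η * ((X ^ (1 - q) * v) ^ (q - 2) * (2 * τ * (X ^ (2 - q) * v))) =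
          X ^ (η - q * (q - 2)) * (2 * τ * v ^ (q - 1)) := by
        rw [Real.mul_rpow (by positivity) hv0.le, ← Real.rpow_mul hX0.le, b1]
        have b2 : X ^ (η - q * (q - 2)) = X ^ η * X ^ ((1 - q) * (q - 2)) * X ^ (2 - q) := by
          rw [← Real.rpow_add hX0, ← Real.rpow_add hX0]
          congr 1
          ring
        rw [b2]
        ring
      rw [e1]
      have e2 : X ^ (η - q * (q - 2)) ≤ X ^ (-(1:ℝ)) := by
        apply Real.rpow_le_rpow_of_exponent_le (hX k)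
        nlinarith
      have : 0 ≤ 2 * τ * v ^ (q - 1) := by positivity
      gcongr
    refine lt_of_le_of_lt (ENNReal.tsum_le_tsum hk) ?_
    rw [ENNReal.tsum_mul_right]
    exact ENNReal.mul_lt_top (geo_sum (by norm_num)) ENNReal.ofReal_lt_top
  -- the geometric bound
  set G : ℝ≥0∞ := C * (ENNReal.ofReal (Kc v q η) * ∑' k : ℕ, ENNReal.ofReal (((2:ℝ) ^ k) ^ (-η)))
    with hG
  have hGt : G < ⊤ := ENNReal.mul_lt_top hC (ENNReal.mul_lt_top ENNReal.ofReal_lt_top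
    (geo_sum (by linarith)))
  have hgeo : ∀ j, J ≤ j → GG q l (ST ((2 ^ j : ℕ) : ℝ)) f ≤
      G * ENNReal.ofReal (((2:ℝ) ^ j) ^ (-(δ / 2))) := by
    intro j hj
    have hTj : ((2 ^ j : ℕ) : ℝ) = (2:ℝ) ^ j := by push_cast; rfl
    have hDj := hJ j hj
    rw [hTj] at hDj ⊢
    set T : ℝ := (2:ℝ) ^ j with hT
    have hT0 : 0 < T := by positivity
    refine (hsum f hf hs hV l (ST T)).trans ?_
    have hk : ∀ k : ℕ, ENNReal.ofReal (((2:ℝ) ^ k) ^ η) * GG q l (ST T) (fk f k) ≤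
        ENNReal.ofReal (((2:ℝ) ^ k) ^ (-η)) * (ENNReal.ofReal (Kc v q η) *
          ENNReal.ofReal (T ^ (-(δ / 2)))) := by
      intro k
      set X : ℝ := (2:ℝ) ^ k with hXd
      have hX0 : 0 < X := by positivity
      have hDk : D T l (fk f k) ≤ ENNReal.ofReal (X ^ (4 - q + η) * T ^ (-γ)) := by
        have h1 : W q η k * D T l (fk f k) ≤ ENNReal.ofReal (T ^ (-γ)) :=
          (ENNReal.le_tsum k).trans hDj
        have h2 : ENNReal.ofReal (X ^ (4 - q + η)) * W q η k = 1 := by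
          unfold W
          rw [← ENNReal.ofReal_mul (by positivity), ← hXd, ← Real.rpow_add hX0, add_neg_cancel,
            Real.rpow_zero, ENNReal.ofReal_one]
        calc D T l (fk f k) = ENNReal.ofReal (X ^ (4 - q + η)) * (W q η k * D T l (fk f k)) := by
              rw [← mul_assoc, h2, one_mul]
          _ ≤ ENNReal.ofReal (X ^ (4 - q + η)) * ENNReal.ofReal (T ^ (-γ)) := by gcongr
          _ = _ := (ENNReal.ofReal_mul (by positivity)).symm
      have hA : GG q l (ST T) (fk f k) ≤ ENNReal.ofReal ((2 * T * (X ^ (2 - q) * v)) ^ ((4 - q) / 2) *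
          (X ^ (4 - q + η) * T ^ (-γ)) ^ ((q - 2) / 2)) := by
        refine (GG_interp (by linarith) hq4 hT0.le (fk_BS hf hs k)).trans ?_
        rw [ENNReal.ofReal_mul (p := (2 * T * (X ^ (2 - q) * v)) ^ ((4 - q) / 2)) (by positivity),
          ← ENNReal.ofReal_rpow_of_nonneg (x := 2 * T * (X ^ (2 - q) * v)) (by positivity)
          (by linarith), ← ENNReal.ofReal_rpow_of_nonneg (x := X ^ (4 - q + η) * T ^ (-γ))
          (by positivity) (by linarith), ENNReal.ofReal_mul (p := 2 * T) (by positivity)]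
        exact mul_le_mul' (ENNReal.rpow_le_rpow (mul_le_mul' le_rfl (m2 k)) (by linarith))
          (ENNReal.rpow_le_rpow hDk (by linarith))
      have hBk := hB k T (ST T) hT0 (ST_vol T hT0.le)
      have hN := geo_mean (by positivity) (by positivity) hη0.le (by linarith) hA hBk
      have hR := real_ineq hv0 hq3 hδ hδ0 hη hT0 (hX k)
      refine (mul_le_mul' le_rfl (hN.trans (ENNReal.ofReal_le_ofReal hR))).trans (le_of_eq ?_)
      have hK := (Kc_pos hv0 q η).le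
      rw [← ENNReal.ofReal_mul (by positivity), ← ENNReal.ofReal_mul hK,
        ← ENNReal.ofReal_mul (by positivity)]
      congr 1
      have e3 : X ^ (-η) = X ^ η * X ^ (-(2 * η)) := by
        rw [← Real.rpow_add hX0]
        congr 1
        ring
      rw [e3, ← hXd]
      ring
    refine (mul_le_mul' le_rfl (ENNReal.tsum_le_tsum hk)).trans (le_of_eq ?_)
    rw [ENNReal.tsum_mul_right, hG]
    ring
  -- summation
  have hsum2 : ∑' j : ℕ, GG q l (ST ((2 ^ j : ℕ) : ℝ)) f < ⊤ := by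
    have h1 : ∀ j : ℕ, GG q l (ST ((2 ^ j : ℕ) : ℝ)) f ≤
        (if j ∈ Finset.range J then GG q l (ST ((2 ^ j : ℕ) : ℝ)) f else 0) +
          G * ENNReal.ofReal (((2:ℝ) ^ j) ^ (-(δ / 2))) := by
      intro j
      by_cases hj : j ∈ Finset.range J
      · rw [if_pos hj]
        exact le_self_add
      · rw [if_neg hj, zero_add]
        exact hgeo j (by simpa using hj)
    refine lt_of_le_of_lt (ENNReal.tsum_le_tsum h1) ?_
    rw [ENNReal.tsum_add]
    refine ENNReal.add_lt_top.2 ⟨?_, ?_⟩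
    · rw [tsum_eq_sum (s := Finset.range J) (fun j hj => if_neg hj)]
      refine ENNReal.sum_lt_top.2 fun j hj => ?_
      rw [if_pos hj]
      exact hfin ((2 ^ j : ℕ) : ℝ) _ (by positivity) (ST_vol _ (by positivity))
    · rw [ENNReal.tsum_mul_left]
      exact ENNReal.mul_lt_top hGt (geo_sum (by linarith))
  have h2 : GG q l univ f ≤ GG q l (Icc (-1) 1) f +
      ∑' j : ℕ, GG q l (ST ((2 ^ j : ℕ) : ℝ)) f := by
    unfold GG
    refine (lintegral_mono_set cover_ST).trans ?_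
    refine (lintegral_union_le _ _ _).trans ?_
    gcongr
    exact lintegral_iUnion_le _ _
  refine lt_of_le_of_lt h2 (ENNReal.add_lt_top.2 ⟨?_, hsum2⟩)
  apply hfin 1 _ one_pos
  rw [Real.volume_Icc]
  norm_num

theorem exc_l {q : ℝ} (hq3 : 3 < q) (hq4 : q ≤ 4) {f : E 2 → ℂ} (hf : Measurable f)
    (hs : ∀ z, z ∉ cube 2 → f z = 0) (hV : VV q f ≠ ⊤) :
    dimH {l ∈ Icc (0:ℝ) 1 | GG q l univ f = ⊤} ≤ ENNReal.ofReal ((4 - q) / (q - 2)) := by
  have hg0 : 0 ≤ (4 - q) / (q - 2) := div_nonneg (by linarith) (by linarith)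
  have key : ∀ γ e : ℝ, (4 - q) / (q - 2) < γ → 0 < e → e < 1 →
      dimH {l ∈ Icc (0:ℝ) 1 | GG q l univ f = ⊤} ≤ ENNReal.ofReal (γ + e) := by
    intro γ e hγ he0 he1
    set δ : ℝ := γ * ((q - 2) / 2) - (4 - q) / 2 with hδ
    have hδ0 : 0 < δ := by
      rw [div_lt_iff₀ (by linarith)] at hγ
      rw [hδ]
      linarith
    set η : ℝ := δ / (2 * (1 + δ)) with hη
    have hη0 : 0 < η := by positivity
    obtain ⟨C, hC, h⟩ := ZZ_avg (q := q) (ε := η) (β := e / 2) hη0 (by linarith) (by linarith)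
      (by linarith)
    have e1 : 2 * (e / 2) - 1 = e - 1 := by ring
    rw [e1] at h
    have hdb := dim_bound (c := 0) (w := 1) one_pos (fun j l => DD q η f ((2 ^ j : ℕ) : ℝ) l)
      (fun j l => ZZ q η f ((2 ^ j : ℕ) : ℝ) l) cT (C * VV q f) cT_lt.ne
      (ENNReal.mul_ne_top hC.ne hV) γ e (by linarith) ?_ ?_
    · refine le_trans (dimH_mono ?_) hdb
      rintro l ⟨hl, hT⟩
      refine ⟨by rwa [zero_add], ?_⟩
      by_contra hcon
      rw [not_frequently] at hcon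
      simp only [not_lt] at hcon
      have := good_fin hq3.le hq4 hδ hδ0 hη hf hs hV hcon
      exact absurd hT this.ne
    · intro j k hk l hl
      have hN0 : (0:ℝ) < ((2 ^ j : ℕ) : ℝ) := by positivity
      set N : ℝ := ((2 ^ j : ℕ) : ℝ) with hNd
      have hcd : (0:ℝ) + k * (1 / N) ≤ 0 + (k + 1) * (1 / N) := by
        have : 0 < 1 / N := by positivity
        nlinarith
      have hdT : ((0:ℝ) + (k + 1) * (1 / N) - (0 + k * (1 / N))) * N ≤ 1 := by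
        have : ((0:ℝ) + (k + 1) * (1 / N) - (0 + k * (1 / N))) * N = 1 := by
          field_simp
          ring
        exact this.le
      have hloc := DD_loc (q := q) (ε := η) hcd hdT hf hs l hl
      have e2 : (0:ℝ) + (k + 1) * (1 / N) - (0 + k * (1 / N)) = 1 / N := by ring
      rw [e2] at hloc
      exact hloc
    · intro j
      have hN1 : (1:ℝ) ≤ ((2 ^ j : ℕ) : ℝ) := by exact_mod_cast Nat.one_le_two_pow
      rw [zero_add]
      exact h f hf hs _ hN1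
  refine ENNReal.le_of_forall_pos_le_add fun ε hε _ => ?_
  have hε' : (0:ℝ) < ε := hε
  set κ : ℝ := min (ε : ℝ) 1 / 4 with hκ
  have hκ0 : 0 < κ := by
    rw [hκ]
    have : 0 < min (ε : ℝ) 1 := lt_min hε' one_pos
    positivity
  have hκ1 : κ < 1 := by
    rw [hκ]
    have : min (ε : ℝ) 1 ≤ 1 := min_le_right _ _
    linarith
  have hκ2 : κ + κ ≤ ε := by
    rw [hκ]
    have : min (ε : ℝ) 1 ≤ ε := min_le_left _ _
    linarith
  refine (key ((4 - q) / (q - 2) + κ) κ (by linarith) hκ0 hκ1).trans ?_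
  rw [add_assoc, ENNReal.ofReal_add hg0 (by linarith)]
  gcongr
  rw [← ENNReal.ofReal_coe_nnreal]
  exact ENNReal.ofReal_le_ofReal hκ2

end Pool.Agent.W777.ST
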