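import Mathlib
import Pool.Agent.W777.ST.Exc
import Pool.Agent.W777.DL.Tr
set_option autoImplicit false

/-! The extension operator of the paraboloid applied to stretched functions. -/

namespace Pool.Agent.W777.ST

open MeasureTheory Set Complex FourierTransform Filter
open scoped ENNReal NNReal RealInnerProductSpace Topology
open Pool.Agent.H153R4
open Pool.Agent.W777.DL (pr pr_meas E3_lint measurable_vec2)

/-- extension operator -/
noncomputable def ext (f : E 2 → ℂ) (ξ : E 3) : ℂ :=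
  ∫ x, cexp (-(((x 0 * ξ 0 + x 1 * ξ 1 + (x 0 ^ 2 + x 1 ^ 2) * ξ 2 : ℝ) : ℂ) * I)) * f x

/-- stretching -/
noncomputable def stretch (s : ℝ) (f : E 2 → ℂ) (x : E 2) : ℂ := f !₂[x 0, x 1 / s]

/-- the linear map `(z₀, z₁) ↦ (z₀, s z₁)` -/
noncomputable def As (s : ℝ) (hs : s ≠ 0) : E 2 ≃ₗ[ℝ] E 2 where
  toFun z := !₂[z 0, s * z 1]
  invFun z := !₂[z 0, s⁻¹ * z 1]
  map_add' x y := by
    ext i
    fin_cases i
    · simp
    · simp
      ring
  map_smul' c x := by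
    ext i
    fin_cases i
    · simp
    · simp
      ring
  left_inv x := by
    ext i
    fin_cases i
    · simp
    · simp
      field_simp
  right_inv x := by
    ext i
    fin_cases i
    · simp
    · simp
      field_simp

/-- the linear map of frequencies -/
noncomputable def Bs (s : ℝ) (hs : s ≠ 0) : E 3 ≃ₗ[ℝ] E 3 where
  toFun z := !₂[(2 * Real.pi)⁻¹ * z 0, (2 * Real.pi)⁻¹ * s * z 1, (2 * Real.pi)⁻¹ * z 2]
  invFun z := !₂[(2 * Real.pi) * z 0, (2 * Real.pi) * s⁻¹ * z 1, (2 * Real.pi) * z 2]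
  map_add' x y := by
    ext i
    fin_cases i <;> simp <;> ring
  map_smul' c x := by
    ext i
    fin_cases i <;> simp <;> ring
  left_inv x := by
    have := Real.pi_pos.ne'
    ext i
    fin_cases i <;> simp <;> field_simp
  right_inv x := by
    have := Real.pi_pos.ne'
    ext i
    fin_cases i <;> simp <;> field_simp

lemma map_equiv {n : ℕ} (L : E n ≃ₗ[ℝ] E n) : Measure.map L (volume : Measure (E n)) =
    ENNReal.ofReal |(LinearMap.det (L : E n →ₗ[ℝ] E n))⁻¹| • volume := by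
  have hd : LinearMap.det (L : E n →ₗ[ℝ] E n) ≠ 0 := (LinearEquiv.isUnit_det' L).ne_zero
  exact Measure.map_linearMap_addHaar_eq_smul_addHaar volume hd

lemma equiv_meas {n : ℕ} (L : E n ≃ₗ[ℝ] E n) : Measurable L :=
  (L.toContinuousLinearEquiv.continuous).measurable

lemma ext_stretch {s : ℝ} (hs : 0 < s) {f : E 2 → ℂ} (hf : Measurable f) (ξ : E 3) :
    ext (stretch s f) ξ = ((|(LinearMap.det (As s hs.ne' : E 2 →ₗ[ℝ] E 2))| : ℝ) : ℂ) *
      𝓕 (ch (sv ((Bs s hs.ne' ξ) 2, ll (s ^ 2))) f) (pr (Bs s hs.ne' ξ)) := by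
  set L := As s hs.ne' with hL
  set d := LinearMap.det (L : E 2 →ₗ[ℝ] E 2) with hd
  have hd0 : d ≠ 0 := (LinearEquiv.isUnit_det' L).ne_zero
  set G : E 2 → ℂ := fun x =>
    cexp (-(((x 0 * ξ 0 + x 1 * ξ 1 + (x 0 ^ 2 + x 1 ^ 2) * ξ 2 : ℝ) : ℂ) * I)) * stretch s f x
    with hG
  have hst : Measurable (stretch s f) := by
    unfold stretch
    exact hf.comp (measurable_vec2.comp (Measurable.prodMk (by fun_prop) (by fun_prop)))
  have hGm : Measurable G := by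
    rw [hG]
    exact (by fun_prop : Measurable fun x : E 2 =>
      cexp (-(((x 0 * ξ 0 + x 1 * ξ 1 + (x 0 ^ 2 + x 1 ^ 2) * ξ 2 : ℝ) : ℂ) * I))).mul hst
  have h1 : ∫ z, G (L z) = ∫ x, G x ∂(Measure.map L volume) :=
    (integral_map (equiv_meas L).aemeasurable hGm.aestronglyMeasurable).symm
  rw [map_equiv, integral_smul_measure, ENNReal.toReal_ofReal (abs_nonneg _), abs_inv,
    Complex.real_smul] at h1
  have h2 : ext (stretch s f) ξ = ((|d| : ℝ) : ℂ) * ∫ z, G (L z) := by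
    rw [h1, ← mul_assoc, ← Complex.ofReal_mul, mul_inv_cancel₀ (abs_pos.2 hd0).ne',
      Complex.ofReal_one, one_mul]
    rfl
  rw [h2]
  congr 1
  rw [Real.fourier_eq']
  apply integral_congr_ae
  refine ae_of_all _ fun z => ?_
  have e1 : stretch s f (L z) = f z := by
    unfold stretch
    congr 1
    ext i
    fin_cases i
    · rfl
    · change s * z 1 / s = z 1
      field_simp
  have e2 : (L z) 0 = z 0 := rfl
  have e3 : (L z) 1 = s * z 1 := rfl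
  have e4 : (Bs s hs.ne' ξ) 2 = (2 * Real.pi)⁻¹ * ξ 2 := rfl
  have e5 : ⟪z, pr (Bs s hs.ne' ξ)⟫ = z 0 * ((2 * Real.pi)⁻¹ * ξ 0) +
      z 1 * ((2 * Real.pi)⁻¹ * s * ξ 1) := by
    rw [PiLp.inner_apply, Fin.sum_univ_two]
    have a0 : (pr (Bs s hs.ne' ξ)).ofLp 0 = (2 * Real.pi)⁻¹ * ξ 0 := rfl
    have a1 : (pr (Bs s hs.ne' ξ)).ofLp 1 = (2 * Real.pi)⁻¹ * s * ξ 1 := rfl
    rw [a0, a1]
    simp only [RCLike.inner_apply, conj_trivial]
    ring
  simp only [hG]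
  rw [e1, e2, e3, e4, e5]
  unfold ch
  rw [sv_ll, smul_eq_mul, ← mul_assoc, ← Complex.exp_add]
  congr 2
  have hpi : (2 * Real.pi) ≠ 0 := by positivity
  have e6 : (z 0 * ξ 0 + s * z 1 * ξ 1 + (z 0 ^ 2 + (s * z 1) ^ 2) * ξ 2) =
      2 * Real.pi * (z 0 * ((2 * Real.pi)⁻¹ * ξ 0) + z 1 * ((2 * Real.pi)⁻¹ * s * ξ 1)) +
      2 * Real.pi * ((2 * Real.pi)⁻¹ * ξ 2 * z 0 ^ 2 +
        (2 * Real.pi)⁻¹ * ξ 2 * s ^ 2 * z 1 ^ 2) := by
    field_simp
  rw [e6]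
  push_cast
  ring

lemma ext_meas {s : ℝ} (hs : 0 < s) {f : E 2 → ℂ} (hf : Measurable f) :
    Measurable (ext (stretch s f)) := by
  have e : ext (stretch s f) = fun ξ => ((|(LinearMap.det (As s hs.ne' : E 2 →ₗ[ℝ] E 2))| : ℝ) : ℂ) *
      𝓕 (ch (sv ((Bs s hs.ne' ξ) 2, ll (s ^ 2))) f) (pr (Bs s hs.ne' ξ)) := by
    ext ξ
    exact ext_stretch hs hf ξ
  rw [e]
  refine Measurable.const_mul ?_ _
  have hB := equiv_meas (Bs s hs.ne')
  have h2 : Measurable fun ξ => (Bs s hs.ne' ξ) 2 :=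
    (by fun_prop : Measurable fun y : E 3 => y 2).comp hB
  exact (FL_meas (s ^ 2) hf).comp (f := fun ξ => ((Bs s hs.ne' ξ) 2, pr (Bs s hs.ne' ξ)))
    (Measurable.prodMk h2 (pr_meas.comp hB))

/-- integrability of the extension -/
theorem ext_memLp {s q : ℝ} (hs : 0 < s) (hq : 0 < q) {f : E 2 → ℂ} (hf : Measurable f)
    (hG : GG q (s ^ 2) univ f ≠ ⊤) : MemLp (ext (stretch s f)) (ENNReal.ofReal q) volume := by
  refine ⟨(ext_meas hs hf).aestronglyMeasurable, ?_⟩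
  rw [eLpNorm_lt_top_iff_lintegral_rpow_enorm_lt_top (ENNReal.ofReal_pos.2 hq).ne'
    ENNReal.ofReal_ne_top, ENNReal.toReal_ofReal hq.le]
  set c : ℂ := ((|(LinearMap.det (As s hs.ne' : E 2 →ₗ[ℝ] E 2))| : ℝ) : ℂ) with hc
  have hm := FL_meas (s ^ 2) hf
  set K : E 3 → ℝ≥0∞ := fun y => ‖𝓕 (ch (sv (y 2, ll (s ^ 2))) f) (pr y)‖ₑ ^ q with hK
  have hKm : Measurable K := by
    have : Measurable fun y : E 3 => 𝓕 (ch (sv (y 2, ll (s ^ 2))) f) (pr y) :=
      hm.comp (f := fun y : E 3 => (y 2, pr y)) (Measurable.prodMk (by fun_prop) pr_meas)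
    exact this.enorm.pow_const q
  have e1 : ∀ ξ, ‖ext (stretch s f) ξ‖ₑ ^ q = ‖c‖ₑ ^ q * K (Bs s hs.ne' ξ) := by
    intro ξ
    rw [ext_stretch hs hf ξ, enorm_mul, ENNReal.mul_rpow_of_nonneg _ _ hq.le]
  simp only [e1]
  have hcq : ‖c‖ₑ ^ q ≠ ⊤ := ENNReal.rpow_ne_top_of_nonneg hq.le (by simp)
  rw [lintegral_const_mul' _ _ hcq]
  refine ENNReal.mul_lt_top hcq.lt_top ?_
  have e2 : ∫⁻ ξ, K (Bs s hs.ne' ξ) = ∫⁻ y, K y ∂(Measure.map (Bs s hs.ne') volume) :=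
    (lintegral_map hKm (equiv_meas _)).symm
  rw [e2, map_equiv, lintegral_smul_measure, smul_eq_mul]
  refine ENNReal.mul_lt_top ENNReal.ofReal_lt_top ?_
  have hH : Measurable (Function.uncurry fun (t : ℝ) (y : E 2) =>
      ‖𝓕 (ch (sv (t, ll (s ^ 2))) f) y‖ₑ ^ q) := hm.enorm.pow_const q
  have e3 := E3_lint (fun (t : ℝ) (y : E 2) => ‖𝓕 (ch (sv (t, ll (s ^ 2))) f) y‖ₑ ^ q) hH
  rw [hK]
  refine lt_of_le_of_lt (le_of_eq e3) ?_
  unfold GG at hG
  rw [Measure.restrict_univ] at hG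
  exact hG.lt_top

end Pool.Agent.W777.ST
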