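import Mathlib
import Pool.Agent.W777.ST.Fin
set_option autoImplicit false

/-! The exceptional set of stretchings for densities in `L^q`, all `q > 3`. -/

namespace Pool.Agent.W777.ST

open MeasureTheory Set Complex FourierTransform Filter
open scoped ENNReal NNReal RealInnerProductSpace Topology
open Pool.Agent.H153R4

lemma GG_mono {q p l : ℝ} (hq : 0 ≤ q) (hqp : q ≤ p) (S : Set ℝ) {g : E 2 → ℂ}
    (hg : ∫⁻ z, ‖g z‖ₑ ≠ ⊤) : GG p l S g ≤ (∫⁻ z, ‖g z‖ₑ) ^ (p - q) * GG q l S g := by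
  have hf1 : (∫⁻ z, ‖g z‖ₑ) ^ (p - q) ≠ ⊤ := ENNReal.rpow_ne_top_of_nonneg (by linarith) hg
  unfold GG
  rw [← lintegral_const_mul' _ _ hf1]
  apply lintegral_mono
  intro t
  simp only
  rw [← lintegral_const_mul' _ _ hf1]
  apply lintegral_mono
  intro x
  simp only
  have hsup : ‖𝓕 (ch (sv (t, ll l)) g) x‖ₑ ≤ ∫⁻ z, ‖g z‖ₑ := by
    rw [Real.fourier_eq]
    refine (enorm_integral_le_lintegral_enorm _).trans (le_of_eq ?_)
    apply lintegral_congr
    intro z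
    rw [← ofReal_norm, Circle.norm_smul, ofReal_norm, ch_enorm]
  have e1 : ‖𝓕 (ch (sv (t, ll l)) g) x‖ₑ ^ p =
      ‖𝓕 (ch (sv (t, ll l)) g) x‖ₑ ^ (p - q) * ‖𝓕 (ch (sv (t, ll l)) g) x‖ₑ ^ q := by
    rw [← ENNReal.rpow_add_of_nonneg _ _ (by linarith) hq]
    congr 1
    ring
  rw [e1]
  gcongr

lemma VV_fin {q : ℝ} (hq : 0 < q) {f : E 2 → ℂ} (hf : MemLp f (ENNReal.ofReal q) volume) :
    VV q f ≠ ⊤ := by
  unfold VV
  refine ENNReal.add_ne_top.2 ⟨ENNReal.mul_ne_top ENNReal.ofReal_ne_top ?_, ?_⟩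
  · have h := hf.2
    rw [eLpNorm_lt_top_iff_lintegral_rpow_enorm_lt_top (ENNReal.ofReal_pos.2 hq).ne'
      ENNReal.ofReal_ne_top, ENNReal.toReal_ofReal hq.le] at h
    exact h.ne
  · exact (cube_vol 2).ne

theorem exc_l_all {q : ℝ} (hq3 : 3 < q) {f : E 2 → ℂ} (hf : Measurable f)
    (hs : ∀ z, z ∉ cube 2 → f z = 0) (hL : MemLp f (ENNReal.ofReal q) volume) :
    dimH {l ∈ Icc (0:ℝ) 1 | GG q l univ f = ⊤} ≤ ENNReal.ofReal ((4 - q) / (q - 2)) := by
  rcases le_or_gt q 4 with h4 | h4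
  · exact exc_l hq3 h4 hf hs (VV_fin (by linarith) hL)
  have h0 : ENNReal.ofReal ((4 - q) / (q - 2)) = 0 := by
    rw [ENNReal.ofReal_eq_zero]
    exact div_nonpos_of_nonpos_of_nonneg (by linarith) (by linarith)
  rw [h0]
  have hfin : volume (cube 2) ≠ ⊤ := (cube_vol 2).ne
  have hmem : ∀ p : ℝ≥0∞, p ≤ ENNReal.ofReal q → MemLp f p volume := fun p hp =>
    hL.mono_exponent_of_measure_support_ne_top (s := cube 2) hs hfin hp
  have hL4 : MemLp f (ENNReal.ofReal 4) volume := hmem _ (ENNReal.ofReal_le_ofReal h4.le)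
  have hL1 : ∫⁻ z, ‖f z‖ₑ ≠ ⊤ := by
    have h1 := hmem 1 (by
      rw [← ENNReal.ofReal_one]
      exact ENNReal.ofReal_le_ofReal (by linarith))
    have h2 := h1.2
    rw [eLpNorm_one_eq_lintegral_enorm] at h2
    exact h2.ne
  have h5 := exc_l (q := 4) (by norm_num) le_rfl hf hs (VV_fin (by norm_num) hL4)
  have h6 : ENNReal.ofReal ((4 - 4) / (4 - 2)) = 0 := by norm_num
  rw [h6] at h5
  refine le_trans (dimH_mono ?_) h5
  rintro l ⟨hl, hT⟩
  refine ⟨hl, ?_⟩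
  have h7 := GG_mono (l := l) (q := 4) (p := q) (by norm_num) h4.le univ hL1
  rw [hT, top_le_iff] at h7
  by_contra hcon
  have h8 : (∫⁻ z, ‖f z‖ₑ) ^ (q - 4) ≠ ⊤ :=
    ENNReal.rpow_ne_top_of_nonneg (by linarith) hL1
  exact absurd h7 (ENNReal.mul_ne_top h8 hcon)

theorem exc_s {q : ℝ} (hq3 : 3 < q) {f : E 2 → ℂ} (hf : Measurable f)
    (hs : ∀ z, z ∉ cube 2 → f z = 0) (hL : MemLp f (ENNReal.ofReal q) volume) :
    dimH {s ∈ Ioc (0:ℝ) 1 | GG q (s ^ 2) univ f = ⊤} ≤ ENNReal.ofReal ((4 - q) / (q - 2)) := by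
  have hsub : {s ∈ Ioc (0:ℝ) 1 | GG q (s ^ 2) univ f = ⊤} ⊆
      Real.sqrt '' ({l ∈ Icc (0:ℝ) 1 | GG q l univ f = ⊤} ∩ Ioi 0) := by
    rintro s ⟨hl, hT⟩
    refine ⟨s ^ 2, ⟨⟨⟨by positivity, ?_⟩, hT⟩, ?_⟩, Real.sqrt_sq hl.1.le⟩
    · nlinarith [hl.1, hl.2]
    · have := hl.1
      exact mem_Ioi.2 (by positivity)
  refine (dimH_mono hsub).trans ?_
  have hc : ContDiffOn ℝ 1 Real.sqrt (Ioi (0:ℝ)) := fun x hx =>
    (Real.contDiffAt_sqrt (ne_of_gt hx)).contDiffWithinAt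
  refine (hc.dimH_image_le (convex_Ioi 0) inter_subset_right).trans ?_
  exact (dimH_mono inter_subset_left).trans (exc_l_all hq3 hf hs hL)

lemma stretch_ae {s : ℝ} (hs : s ≠ 0) {f g : E 2 → ℂ} (h : f =ᵐ[volume] g) :
    stretch s f =ᵐ[volume] stretch s g := by
  have h1 : (fun x : E 2 => (!₂[x 0, x 1 / s] : E 2)) = ((As s hs).symm : E 2 → E 2) := by
    ext x i
    fin_cases i
    · rfl
    · change x 1 / s = s⁻¹ * x 1
      ring
  have hq : Measure.QuasiMeasurePreserving ((As s hs).symm : E 2 → E 2) volume volume := by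
    refine ⟨equiv_meas _, ?_⟩
    rw [map_equiv]
    exact Measure.smul_absolutelyContinuous
  have := hq.ae_eq_comp h
  rw [← h1] at this
  exact this

lemma ext_congr {f g : E 2 → ℂ} (h : f =ᵐ[volume] g) : ext f = ext g := by
  ext ξ
  unfold ext
  apply integral_congr_ae
  filter_upwards [h] with x hx
  rw [hx]

/-- a good representative -/
lemma good_rep {q : ℝ} {f : E 2 → ℂ} (hf : MemLp f (ENNReal.ofReal q) volume)
    (hs : ∀ x, 1 / 2 < ‖x‖ → f x = 0) : ∃ g : E 2 → ℂ, Measurable g ∧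
      (∀ z, z ∉ cube 2 → g z = 0) ∧ MemLp g (ENNReal.ofReal q) volume ∧ f =ᵐ[volume] g := by
  set g := (Metric.closedBall (0 : E 2) (1 / 2)).indicator (hf.1.mk f) with hg
  have h1 : f =ᵐ[volume] g := by
    filter_upwards [hf.1.ae_eq_mk] with x hx
    by_cases hb : x ∈ Metric.closedBall (0 : E 2) (1 / 2)
    · rw [hg, indicator_of_mem hb, hx]
    · rw [hg, indicator_of_notMem hb]
      apply hs
      simpa using hb
  refine ⟨g, (hf.1.stronglyMeasurable_mk.measurable).indicator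
    Metric.isClosed_closedBall.measurableSet, fun z hz => ?_, hf.ae_eq h1, h1⟩
  apply indicator_of_notMem
  intro hb
  apply hz
  rw [mem_closedBall_zero_iff] at hb
  intro j
  have h2 : ‖z j‖ ≤ ‖z‖ := PiLp.norm_apply_le z j
  rw [Real.norm_eq_abs] at h2
  linarith

end Pool.Agent.W777.ST
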