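import Mathlib
import Pool.Agent.W777.ST.Lev
import Pool.Agent.H438R2.RZ.M1
set_option autoImplicit false

/-! The averaged estimate from `L^q` to `L^q`. -/

namespace Pool.Agent.W777.ST

open MeasureTheory Set Complex FourierTransform Filter
open scoped ENNReal NNReal RealInnerProductSpace Topology
open Pool.Agent.H153R4
open Pool.Agent.H438R2.RZ (marc24)

variable {n : ℕ}

lemma BS_ind {M : ℝ} {g : E n → ℂ} (hg : BS M g) {S : Set (E n)} (hS : MeasurableSet S) :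
    BS M (S.indicator g) := by
  refine ⟨hg.meas.indicator hS, fun z => ?_, fun z hz => ?_⟩
  · by_cases h : z ∈ S
    · rw [indicator_of_mem h]
      exact hg.bd z
    · rw [indicator_of_notMem h, norm_zero]
      exact hg.M0
  · by_cases h : z ∈ S
    · rw [indicator_of_mem h]
      exact hg.supp z hz
    · rw [indicator_of_notMem h]

lemma F_split {M : ℝ} {g : E n → ℂ} (hg : BS M g) {S : Set (E n)} (hS : MeasurableSet S)
    (s : Fin n → ℝ) (x : E n) : ‖𝓕 (ch s g) x‖ₑ ≤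
      ‖𝓕 (ch s (S.indicator g)) x‖ₑ + ‖𝓕 (ch s (Sᶜ.indicator g)) x‖ₑ := by
  have e : 𝓕 (ch s g) x = 𝓕 (ch s (S.indicator g)) x + 𝓕 (ch s (Sᶜ.indicator g)) x := by
    rw [Real.fourier_eq, Real.fourier_eq, Real.fourier_eq, ← integral_add]
    · apply integral_congr_ae
      refine ae_of_all _ fun z => ?_
      simp only
      rw [← smul_add]
      congr 1
      unfold ch
      rw [← mul_add]
      congr 1
      by_cases h : z ∈ S
      · rw [indicator_of_mem h, indicator_of_notMem (by simpa using h), add_zero]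
      · rw [indicator_of_notMem h, indicator_of_mem (by simpa using h), zero_add]
    · exact (Real.fourierIntegral_convergent_iff (μ := volume) x).2 ((BS_ind hg hS).ch s).int
    · exact (Real.fourierIntegral_convergent_iff (μ := volume) x).2
        ((BS_ind hg hS.compl).ch s).int
  rw [e]
  exact enorm_add_le _ _

theorem block_L {m : ℕ} {q β α L A : ℝ} (hq2 : 2 < q) (hq4 : q < 4) (hβ0 : 0 < β) (hβ1 : β ≤ 1)
    (hL : 1 ≤ L) (hA : 0 < A) :
    ∃ C : ℝ, 0 < C ∧ ∀ μ : Measure (Fin m → ℝ), Frost μ A α → ∀ T, 1 ≤ T →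
      ∀ (M : ℝ) (g : E (m + 1) → ℂ), BS M g → II μ L q (ST T) g ≤
        ENNReal.ofReal (C * T ^ ((4 - q) / 2 - (α - (m + 1) * β) * ((q - 2) / 2))) *
          ∫⁻ z, ‖g z‖ₑ ^ q := by
  obtain ⟨C, hC, h⟩ := marc24 q hq2 hq4
  have hNL : 0 < NL m L := by unfold NL; positivity
  have hcL : 0 < cL L := by unfold cL; positivity
  set J' : ℝ := (J4 (m + 1) β).toReal + 1 with hJ'
  have hJ0 : 0 < J' := by
    have : 0 ≤ (J4 (m + 1) β).toReal := ENNReal.toReal_nonneg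
    linarith
  have hCA : 0 < CA m A L q := by
    unfold CA
    positivity
  refine ⟨C * J' ^ ((q - 2) / 2) * CA m A L q, by positivity, ?_⟩
  intro μ hμ T hT M g hg
  have := hμ.locfin
  have hT0 : 0 < T := by linarith
  set ν := (volume.restrict (ST T)).prod (μ.restrict (Icc (fun _ : Fin m => -L) (fun _ => L)))
    with hν
  have hKT : 0 < KT m A α L T β := by unfold KT; positivity
  have hF : Measurable fun w : (ℝ × (Fin m → ℝ)) × E (m + 1) => ‖𝓕 (ch (sv w.1) g) w.2‖ :=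
    (meas_Fch (m := m) hg.meas).norm
  have key := h (volume : Measure (E (m + 1))) (ν.prod (volume : Measure (E (m + 1))))
    (fun w => ‖𝓕 (ch (sv w.1) g) w.2‖) (fun z => ‖g z‖) hF hg.meas.norm
    (fun w => norm_nonneg _) (fun z => norm_nonneg _) (2 * T * (NL m L * A))
    (KT m A α L T β * J') (by positivity) (by positivity) ?_
  · simp only [ofReal_norm] at key
    have e1 : II μ L q (ST T) g = ∫⁻ w, ‖𝓕 (ch (sv w.1) g) w.2‖ₑ ^ q ∂(ν.prod volume) := by
      rw [lintegral_prod _ ((meas_Fch (m := m) hg.meas).enorm.pow_const q).aemeasurable]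
      rfl
    rw [e1]
    refine key.trans (le_of_eq ?_)
    congr 2
    have e4 := const_eq m A α L q β T hA.le hL hT0
    rw [Real.mul_rpow hKT.le hJ0.le]
    calc C * (2 * T * (NL m L * A)) ^ ((4 - q) / 2) *
          (KT m A α L T β ^ ((q - 2) / 2) * J' ^ ((q - 2) / 2))
        = C * J' ^ ((q - 2) / 2) * ((2 * T * (NL m L * A)) ^ ((4 - q) / 2) *
          KT m A α L T β ^ ((q - 2) / 2)) := by ring
      _ = _ := by
        rw [e4]
        ring
  · intro t ht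
    have hS : MeasurableSet {z : E (m + 1) | t < ‖g z‖} :=
      measurableSet_lt measurable_const hg.meas.norm
    set S := {z : E (m + 1) | t < ‖g z‖} with hSd
    have hSc : Sᶜ = {z : E (m + 1) | ‖g z‖ ≤ t} := by
      ext z
      simp [hSd]
    refine ⟨fun w => ‖𝓕 (ch (sv w.1) (S.indicator g)) w.2‖ₑ,
      fun w => ‖𝓕 (ch (sv w.1) (Sᶜ.indicator g)) w.2‖ₑ,
      (meas_Fch (m := m) (BS_ind hg hS).meas).enorm,
      (meas_Fch (m := m) (BS_ind hg hS.compl).meas).enorm, ?_, ?_, ?_⟩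
    · refine ae_of_all _ fun w => ?_
      rw [ofReal_norm]
      exact F_split hg hS _ _
    · rw [lintegral_prod _ ((meas_Fch (m := m) (BS_ind hg hS).meas).enorm.pow_const 2).aemeasurable]
      simp only [two_ch (BS_ind hg hS)]
      rw [lintegral_const]
      have e2 : ν univ = volume (ST T) * μ (Icc (fun _ : Fin m => -L) (fun _ => L)) := by
        rw [hν, ← univ_prod_univ, Measure.prod_prod, Measure.restrict_apply_univ,
          Measure.restrict_apply_univ]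
      rw [e2, mul_comm]
      have e3 : ∫⁻ z, ‖S.indicator g z‖ₑ ^ 2 = ∫⁻ z in S, ENNReal.ofReal ‖g z‖ ^ 2 := by
        rw [← lintegral_indicator hS]
        apply lintegral_congr
        intro z
        by_cases hz : z ∈ S
        · rw [indicator_of_mem hz, indicator_of_mem hz, ofReal_norm]
        · rw [indicator_of_notMem hz, indicator_of_notMem hz]
          simp
      rw [e3, ENNReal.ofReal_mul (p := 2 * T) (by positivity)]
      gcongr
      · exact ST_vol T hT0.le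
      · exact hμ.mass L
    · rw [lintegral_prod _
        ((meas_Fch (m := m) (BS_ind hg hS.compl).meas).enorm.pow_const 4).aemeasurable]
      refine (block4s μ A α L T β hA.le hL hT hμ hβ0.le hβ1 (BS_ind hg hS.compl)).trans ?_
      have e3 : ∫⁻ z, ‖Sᶜ.indicator g z‖ₑ ^ 4 =
          ∫⁻ z in {z | ‖g z‖ ≤ t}, ENNReal.ofReal ‖g z‖ ^ 4 := by
        rw [← hSc, ← lintegral_indicator hS.compl]
        apply lintegral_congr
        intro z
        by_cases hz : z ∈ Sᶜ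
        · rw [indicator_of_mem hz, indicator_of_mem hz, ofReal_norm]
        · rw [indicator_of_notMem hz, indicator_of_notMem hz]
          simp
      rw [e3, ENNReal.ofReal_mul hKT.le]
      gcongr
      rw [hJ', ENNReal.ofReal_add ENNReal.toReal_nonneg zero_le_one,
        ENNReal.ofReal_toReal (J4_fin (m + 1) β hβ0).ne]
      exact le_self_add

/-- the case `q = 4` together with the previous one -/
theorem block_L' {m : ℕ} {q β α L A : ℝ} (hq2 : 2 < q) (hq4 : q ≤ 4) (hβ0 : 0 < β) (hβ1 : β ≤ 1)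
    (hL : 1 ≤ L) (hA : 0 < A) :
    ∃ C : ℝ, 0 < C ∧ ∀ μ : Measure (Fin m → ℝ), Frost μ A α → ∀ T, 1 ≤ T →
      ∀ (M : ℝ) (g : E (m + 1) → ℂ), BS M g → II μ L q (ST T) g ≤
        ENNReal.ofReal (C * T ^ ((4 - q) / 2 - (α - (m + 1) * β) * ((q - 2) / 2))) *
          ∫⁻ z, ‖g z‖ₑ ^ q := by
  rcases lt_or_eq_of_le hq4 with h4 | h4
  · exact block_L hq2 h4 hβ0 hβ1 hL hA
  subst h4
  have hNL : 0 < NL m L := by unfold NL; positivity
  have hcL : 0 < cL L := by unfold cL; positivity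
  set J' : ℝ := (J4 (m + 1) β).toReal + 1 with hJ'
  have hJ0 : 0 < J' := by
    have : 0 ≤ (J4 (m + 1) β).toReal := ENNReal.toReal_nonneg
    linarith
  have hCA : 0 < CA m A L 4 := by
    unfold CA
    positivity
  refine ⟨J' * CA m A L 4, by positivity, ?_⟩
  intro μ hμ T hT M g hg
  have := hμ.locfin
  have hT0 : 0 < T := by linarith
  have hKT : 0 < KT m A α L T β := by unfold KT; positivity
  have h := block4s μ A α L T β hA.le hL hT hμ hβ0.le hβ1 hg
  have e1 : II μ L 4 (ST T) g = ∫⁻ p, (∫⁻ x, ‖𝓕 (ch (sv p) g) x‖ₑ ^ 4)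
        ∂((volume.restrict (ST T)).prod (μ.restrict (Icc (fun _ => -L) (fun _ => L)))) := by
    unfold II
    simp only [ENNReal.rpow_ofNat]
  rw [e1]
  refine h.trans ?_
  have e4 := const_eq m A α L 4 β T hA.le hL hT0
  have e5 : (4 - 4 : ℝ) / 2 = 0 := by norm_num
  have e6 : (4 - 2 : ℝ) / 2 = 1 := by norm_num
  rw [e5, e6, Real.rpow_zero, Real.rpow_one, one_mul] at e4
  rw [e5, e6, mul_assoc J', ← e4]
  simp only [ENNReal.rpow_ofNat]
  rw [mul_comm J', ENNReal.ofReal_mul hKT.le]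
  gcongr
  rw [hJ', ENNReal.ofReal_add ENNReal.toReal_nonneg zero_le_one,
    ENNReal.ofReal_toReal (J4_fin (m + 1) β hβ0).ne]
  exact le_self_add

/-- Hölder's inequality on the cube -/
lemma hol1 {q a : ℝ} (ha : 0 < a) (haq : a ≤ q) {g : E n → ℂ} (hg : Measurable g)
    (hs : ∀ z, z ∉ cube n → g z = 0) :
    ∫⁻ z, ‖g z‖ₑ ^ a ≤ (volume (cube n)) ^ (1 - a / q) * (∫⁻ z, ‖g z‖ₑ ^ q) ^ (a / q) := by
  have hq : 0 < q := lt_of_lt_of_le ha haq
  have h := eLpNorm_le_eLpNorm_mul_rpow_measure_univ (p := ENNReal.ofReal a)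
    (q := ENNReal.ofReal q) (μ := (volume : Measure (E n)).restrict (cube n))
    (ENNReal.ofReal_le_ofReal haq) hg.aestronglyMeasurable
  rw [eLpNorm_eq_lintegral_rpow_enorm_toReal (ENNReal.ofReal_pos.2 ha).ne' ENNReal.ofReal_ne_top,
    eLpNorm_eq_lintegral_rpow_enorm_toReal (ENNReal.ofReal_pos.2 hq).ne' ENNReal.ofReal_ne_top,
    ENNReal.toReal_ofReal ha.le, ENNReal.toReal_ofReal hq.le, Measure.restrict_apply_univ] at h
  have hr : ∀ b : ℝ, 0 < b → ∫⁻ z in cube n, ‖g z‖ₑ ^ b = ∫⁻ z, ‖g z‖ₑ ^ b := by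
    intro b hb
    apply setLIntegral_eq_of_support_subset
    intro z hz
    by_contra hc
    apply hz
    simp only
    rw [hs z hc, enorm_zero, ENNReal.zero_rpow_of_pos hb]
  rw [hr a ha, hr q hq] at h
  have h2 := ENNReal.rpow_le_rpow h ha.le
  rw [← ENNReal.rpow_mul, ENNReal.mul_rpow_of_nonneg _ _ ha.le, ← ENNReal.rpow_mul,
    ← ENNReal.rpow_mul] at h2
  have e1 : 1 / a * a = 1 := by field_simp
  have e2 : 1 / q * a = a / q := by ring
  have e3 : (1 / a - 1 / q) * a = 1 - a / q := by field_simp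
  rw [e1, e2, e3, ENNReal.rpow_one] at h2
  rw [mul_comm]
  exact h2

lemma hol {q a : ℝ} (ha : 1 ≤ a) (haq : a ≤ q) {g : E n → ℂ} (hg : Measurable g)
    (hs : ∀ z, z ∉ cube n → g z = 0) :
    (∫⁻ z, ‖g z‖ₑ) ^ (q - a) * ∫⁻ z, ‖g z‖ₑ ^ a ≤
      (volume (cube n)) ^ (q - a) * ∫⁻ z, ‖g z‖ₑ ^ q := by
  have hq : 0 < q := by linarith
  have hqn : q ≠ 0 := hq.ne'
  have hV : volume (cube n) ≠ ⊤ := (cube_vol n).ne
  have h1 := hol1 (q := q) (a := 1) one_pos (by linarith) hg hs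
  have h2 := hol1 (q := q) (a := a) (by linarith) haq hg hs
  simp only [ENNReal.rpow_one] at h1
  have h3 : (1:ℝ) / q ≤ 1 := by
    rw [div_le_one hq]
    linarith
  have h4 : a / q ≤ 1 := by
    rw [div_le_one hq]
    exact haq
  have h5 : 0 ≤ q - a := by linarith
  have h6 : (0:ℝ) ≤ 1 / q := by positivity
  have h7 : 0 ≤ a / q := by positivity
  refine (mul_le_mul' (ENNReal.rpow_le_rpow h1 h5) h2).trans (le_of_eq ?_)
  rw [ENNReal.mul_rpow_of_nonneg _ _ h5, ← ENNReal.rpow_mul, ← ENNReal.rpow_mul]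
  have e1 : ∀ a b c d : ℝ≥0∞, a * b * (c * d) = (a * c) * (b * d) := fun a b c d => by ring
  rw [e1, ← ENNReal.rpow_add_of_nonneg _ _ (mul_nonneg (by linarith) h5) (by linarith),
    ← ENNReal.rpow_add_of_nonneg _ _ (mul_nonneg h6 h5) h7]
  have e2 : (1 - 1 / q) * (q - a) + (1 - a / q) = q - a := by
    field_simp
    ring
  have e3 : 1 / q * (q - a) + a / q = 1 := by
    field_simp
    ring
  rw [e2, e3, ENNReal.rpow_one]

lemma sup_b {g : E n → ℂ} (s : Fin n → ℝ) (x : E n) : ‖𝓕 (ch s g) x‖ₑ ≤ ∫⁻ z, ‖g z‖ₑ := by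
  rw [Real.fourier_eq]
  refine (enorm_integral_le_lintegral_enorm _).trans (le_of_eq ?_)
  apply lintegral_congr
  intro z
  rw [← ofReal_norm, Circle.norm_smul, ofReal_norm, ch_enorm]

lemma II_mono' {m : ℕ} (μ : Measure (Fin m → ℝ)) (L : ℝ) {q q0 : ℝ} (hq0 : 0 ≤ q0)
    (hq : q0 ≤ q) (S : Set ℝ) {g : E (m + 1) → ℂ} (hg : Measurable g) :
    II μ L q S g ≤ (∫⁻ z, ‖g z‖ₑ) ^ (q - q0) * II μ L q0 S g := by
  have hG : ∀ p : ℝ × (Fin m → ℝ), ∫⁻ x, ‖𝓕 (ch (sv p) g) x‖ₑ ^ q ≤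
      (∫⁻ z, ‖g z‖ₑ) ^ (q - q0) * ∫⁻ x, ‖𝓕 (ch (sv p) g) x‖ₑ ^ q0 := by
    intro p
    have hm : Measurable fun x : E (m + 1) => ‖𝓕 (ch (sv p) g) x‖ₑ ^ q0 :=
      ((meas_Fch (m := m) hg).comp (f := fun x => (p, x)) (by fun_prop)).enorm.pow_const q0
    rw [← lintegral_const_mul _ hm]
    refine lintegral_mono fun x => ?_
    have h1 := sup_b (g := g) (sv p) x
    have e : ‖𝓕 (ch (sv p) g) x‖ₑ ^ q =
        ‖𝓕 (ch (sv p) g) x‖ₑ ^ (q - q0) * ‖𝓕 (ch (sv p) g) x‖ₑ ^ q0 := by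
      rw [← ENNReal.rpow_add_of_nonneg _ _ (by linarith) hq0]
      congr 1
      ring
    rw [e]
    exact mul_le_mul' (ENNReal.rpow_le_rpow h1 (by linarith)) le_rfl
  unfold II
  exact (lintegral_mono hG).trans (le_of_eq (lintegral_const_mul _ (G_meas q0 hg)))

/-- bounded functions, `q ≤ 4` -/
theorem low_L (m : ℕ) (α q : ℝ) (hα : 0 < α) (hq : 2 + 2 / (1 + α) < q) (hq4 : q ≤ 4)
    (L A : ℝ) (hL : 1 ≤ L) (hA : 0 < A) :
    ∃ C : ℝ≥0∞, C < ⊤ ∧ ∀ μ : Measure (Fin m → ℝ), Frost μ A α →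
      ∀ (M : ℝ) (g : E (m + 1) → ℂ), BS M g → II μ L q univ g ≤ C * ∫⁻ z, ‖g z‖ₑ ^ q := by
  obtain ⟨β, hβ0, hβ1, hβ⟩ := choose_beta m α q hα hq
  have hq2 : 2 < q := by
    have : 0 < 2 / (1 + α) := by positivity
    linarith
  set e : ℝ := (4 - q) / 2 - (α - (m + 1) * β) * ((q - 2) / 2) with he
  obtain ⟨C, hC, h⟩ := block_L' (m := m) (q := q) (β := β) (α := α) (L := L) (A := A) hq2 hq4
    hβ0 hβ1 hL hA
  set V : ℝ≥0∞ := volume (cube (m + 1)) with hV
  have hVf : V < ⊤ := cube_vol (m + 1)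
  set x : ℝ≥0∞ := ENNReal.ofReal ((2 : ℝ) ^ e) with hx
  have hx1 : x < 1 := by
    rw [hx, ENNReal.ofReal_lt_one]
    exact Real.rpow_lt_one_of_one_lt_of_neg (by norm_num) hβ
  have hsum : ∑' j : ℕ, ENNReal.ofReal (C * ((2 : ℝ) ^ j) ^ e) =
      ENNReal.ofReal C * (1 - x)⁻¹ := by
    rw [← ENNReal.tsum_geometric, ← ENNReal.tsum_mul_left]
    congr 1
    ext j
    rw [ENNReal.ofReal_mul hC.le, hx, ← ENNReal.ofReal_pow (by positivity)]
    congr 2
    rw [← Real.rpow_natCast, ← Real.rpow_mul (by norm_num), mul_comm, Real.rpow_mul (by norm_num),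
      Real.rpow_natCast]
  refine ⟨ENNReal.ofReal 2 * ENNReal.ofReal (NL m L * A) * V ^ (q - 2) +
    ENNReal.ofReal C * (1 - x)⁻¹, ?_, ?_⟩
  · apply ENNReal.add_lt_top.2 ⟨?_, ?_⟩
    · exact ENNReal.mul_lt_top (ENNReal.mul_lt_top ENNReal.ofReal_lt_top ENNReal.ofReal_lt_top)
        (ENNReal.rpow_lt_top_of_nonneg (by linarith) hVf.ne)
    · refine ENNReal.mul_lt_top ENNReal.ofReal_lt_top ?_
      rw [ENNReal.inv_lt_top]
      exact tsub_pos_of_lt hx1
  intro μ hμ M g hg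
  have := hμ.locfin
  have hM := hg.M0
  refine (II_univ μ L q hg.meas).trans ?_
  rw [add_mul]
  apply add_le_add
  · refine (II_mono' μ L (by norm_num : (0:ℝ) ≤ 2) hq2.le (Icc (-1) 1) hg.meas).trans ?_
    have h2 : II μ L 2 (Icc (-1) 1) g ≤ ENNReal.ofReal 2 * ENNReal.ofReal (NL m L * A) *
        ∫⁻ z, ‖g z‖ₑ ^ (2:ℝ) := by
      unfold II
      simp only [ENNReal.rpow_ofNat, two_ch hg]
      rw [lintegral_const]
      have e2 : ((volume.restrict (Icc (-1:ℝ) 1)).prod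
          (μ.restrict (Icc (fun _ : Fin m => -L) (fun _ => L)))) univ =
          volume (Icc (-1:ℝ) 1) * μ (Icc (fun _ : Fin m => -L) (fun _ => L)) := by
        rw [← univ_prod_univ, Measure.prod_prod, Measure.restrict_apply_univ,
          Measure.restrict_apply_univ]
      rw [e2, mul_comm]
      gcongr
      · rw [Real.volume_Icc]
        norm_num
      · exact hμ.mass L
    calc (∫⁻ z, ‖g z‖ₑ) ^ (q - 2) * II μ L 2 (Icc (-1) 1) g
        ≤ (∫⁻ z, ‖g z‖ₑ) ^ (q - 2) * (ENNReal.ofReal 2 * ENNReal.ofReal (NL m L * A) *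
        ∫⁻ z, ‖g z‖ₑ ^ (2:ℝ)) := mul_le_mul' le_rfl h2
      _ = ENNReal.ofReal 2 * ENNReal.ofReal (NL m L * A) *
        ((∫⁻ z, ‖g z‖ₑ) ^ (q - 2) * ∫⁻ z, ‖g z‖ₑ ^ (2:ℝ)) := by ring
      _ ≤ ENNReal.ofReal 2 * ENNReal.ofReal (NL m L * A) * (V ^ (q - 2) * ∫⁻ z, ‖g z‖ₑ ^ q) :=
        mul_le_mul' le_rfl (hol (by norm_num) hq2.le hg.meas hg.supp)
      _ = _ := by ring
  · rw [← hsum, ← ENNReal.tsum_mul_right]
    apply ENNReal.tsum_le_tsum
    intro j
    exact h μ hμ (2 ^ j) (one_le_pow₀ (by norm_num)) M g hg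

/-- bounded functions, all `q` -/
theorem all_L (m : ℕ) (α q : ℝ) (hα : 0 < α) (hq : 2 + 2 / (1 + α) < q)
    (L A : ℝ) (hL : 1 ≤ L) (hA : 0 < A) :
    ∃ C : ℝ≥0∞, C < ⊤ ∧ ∀ μ : Measure (Fin m → ℝ), Frost μ A α →
      ∀ (M : ℝ) (g : E (m + 1) → ℂ), BS M g → II μ L q univ g ≤ C * ∫⁻ z, ‖g z‖ₑ ^ q := by
  rcases le_or_gt q 4 with hq4 | hq4
  · exact low_L m α q hα hq hq4 L A hL hA
  · have h4 : 2 + 2 / (1 + α) < 4 := by
      have h1 : 0 < 1 + α := by linarith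
      have : 2 / (1 + α) < 2 := by
        rw [div_lt_iff₀ h1]
        linarith
      linarith
    obtain ⟨C, hC, h⟩ := low_L m α 4 hα h4 le_rfl L A hL hA
    refine ⟨(volume (cube (m + 1))) ^ (q - 4) * C, ENNReal.mul_lt_top
      (ENNReal.rpow_lt_top_of_nonneg (by linarith) (cube_vol _).ne) hC, ?_⟩
    intro μ hμ M g hg
    refine (II_mono' μ L (by norm_num : (0:ℝ) ≤ 4) hq4.le univ hg.meas).trans ?_
    calc (∫⁻ z, ‖g z‖ₑ) ^ (q - 4) * II μ L 4 univ g
        ≤ (∫⁻ z, ‖g z‖ₑ) ^ (q - 4) * (C * ∫⁻ z, ‖g z‖ₑ ^ (4:ℝ)) :=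
        mul_le_mul' le_rfl (h μ hμ M g hg)
      _ = C * ((∫⁻ z, ‖g z‖ₑ) ^ (q - 4) * ∫⁻ z, ‖g z‖ₑ ^ (4:ℝ)) := by ring
      _ ≤ C * ((volume (cube (m + 1))) ^ (q - 4) * ∫⁻ z, ‖g z‖ₑ ^ q) :=
        mul_le_mul' le_rfl (hol (by norm_num) hq4.le hg.meas hg.supp)
      _ = _ := by ring

/-- truncation -/
noncomputable def trc (f : E n → ℂ) (k : ℕ) : E n → ℂ := {z | ‖f z‖ ≤ k}.indicator f

lemma trc_BS {f : E n → ℂ} (hf : Measurable f) (hs : ∀ z, z ∉ cube n → f z = 0) (k : ℕ) :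
    BS (k : ℝ) (trc f k) := by
  refine ⟨hf.indicator (measurableSet_le hf.norm measurable_const), fun z => ?_, fun z hz => ?_⟩
  · unfold trc
    by_cases h : ‖f z‖ ≤ k
    · rw [indicator_of_mem (by exact h)]
      exact h
    · rw [indicator_of_notMem (by exact h), norm_zero]
      positivity
  · unfold trc
    by_cases h : ‖f z‖ ≤ k
    · rw [indicator_of_mem (by exact h)]
      exact hs z hz
    · rw [indicator_of_notMem (by exact h)]

lemma trc_le (f : E n → ℂ) (k : ℕ) (z : E n) : ‖trc f k z‖ₑ ≤ ‖f z‖ₑ := by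
  unfold trc
  by_cases h : ‖f z‖ ≤ k
  · rw [indicator_of_mem (by exact h)]
  · rw [indicator_of_notMem (by exact h)]
    simp

lemma trc_lim (f : E n → ℂ) (z : E n) : Tendsto (fun k => trc f k z) atTop (𝓝 (f z)) := by
  obtain ⟨N, hN⟩ := exists_nat_ge ‖f z‖
  apply tendsto_const_nhds.congr'
  filter_upwards [eventually_ge_atTop N] with k hk
  unfold trc
  rw [indicator_of_mem]
  change ‖f z‖ ≤ k
  have : (N : ℝ) ≤ k := by exact_mod_cast hk
  linarith

lemma F_trc_lim {f : E n → ℂ} (hf : Measurable f) (hi : Integrable f) (s : Fin n → ℝ) (x : E n) :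
    Tendsto (fun k => 𝓕 (ch s (trc f k)) x) atTop (𝓝 (𝓕 (ch s f) x)) := by
  simp only [Real.fourier_eq]
  have hm : ∀ g : E n → ℂ, Measurable g → AEStronglyMeasurable
      (fun z => Real.fourierChar (-⟪z, x⟫) • ch s g z) volume := by
    intro g hg
    have h1 : Measurable (ch s g) := by
      unfold ch
      exact (by fun_prop : Measurable fun z : E n =>
        cexp (((-(2 * Real.pi * ∑ j, s j * z j ^ 2) : ℝ) : ℂ) * I)).mul hg
    have h2 : Measurable fun z : E n => ((Real.fourierChar (-⟪z, x⟫) : Circle) : ℂ) := by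
      have : Continuous fun z : E n => ((Real.fourierChar (-⟪z, x⟫) : Circle) : ℂ) := by
        fun_prop
      exact this.measurable
    exact (h2.mul h1).aestronglyMeasurable
  refine tendsto_integral_of_dominated_convergence (fun z => ‖f z‖) (fun k => hm _ ?_) hi.norm
    (fun k => ae_of_all _ fun z => ?_) (ae_of_all _ fun z => ?_)
  · exact hf.indicator (measurableSet_le hf.norm measurable_const)
  · rw [Circle.norm_smul, ch_norm]
    have := trc_le f k z
    rw [← ofReal_norm, ← ofReal_norm, ENNReal.ofReal_le_ofReal_iff (norm_nonneg _)] at this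
    exact this
  · apply Tendsto.const_smul
    unfold ch
    exact (trc_lim f z).const_mul _

/-- the averaged estimate from `L^q` to `L^q` -/
theorem main_L (m : ℕ) (α q : ℝ) (hα : 0 < α) (hq : 2 + 2 / (1 + α) < q)
    (L A : ℝ) (hL : 1 ≤ L) (hA : 0 < A) :
    ∃ C : ℝ≥0∞, C < ⊤ ∧ ∀ μ : Measure (Fin m → ℝ), Frost μ A α →
      ∀ (f : E (m + 1) → ℂ), Measurable f → (∀ z, z ∉ cube (m + 1) → f z = 0) →
        ∫⁻ z, ‖f z‖ₑ ^ q ≠ ⊤ → II μ L q univ f ≤ C * ∫⁻ z, ‖f z‖ₑ ^ q := by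
  obtain ⟨C, hC, h⟩ := all_L m α q hα hq L A hL hA
  have hq2 : 2 < q := by
    have : 0 < 2 / (1 + α) := by positivity
    linarith
  refine ⟨C, hC, fun μ hμ f hf hs hfin => ?_⟩
  have := hμ.locfin
  have hi : Integrable f := by
    refine ⟨hf.aestronglyMeasurable, ?_⟩
    have h1 := hol1 (q := q) (a := 1) one_pos (by linarith) hf hs
    simp only [ENNReal.rpow_one] at h1
    refine lt_of_le_of_lt h1 ?_
    refine ENNReal.mul_lt_top (ENNReal.rpow_lt_top_of_nonneg ?_ (cube_vol _).ne)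
      (ENNReal.rpow_lt_top_of_nonneg (by positivity) hfin)
    have : 1 / q ≤ 1 := by
      rw [div_le_one (by linarith)]
      linarith
    linarith
  set ν := (volume.restrict (univ : Set ℝ)).prod
    (μ.restrict (Icc (fun _ : Fin m => -L) (fun _ => L))) with hν
  have hII : ∀ g : E (m + 1) → ℂ, Measurable g → II μ L q univ g =
      ∫⁻ w, ‖𝓕 (ch (sv w.1) g) w.2‖ₑ ^ q ∂(ν.prod volume) := by
    intro g hg
    rw [lintegral_prod _ ((meas_Fch (m := m) hg).enorm.pow_const q).aemeasurable]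
    rfl
  have hlim : ∀ w : (ℝ × (Fin m → ℝ)) × E (m + 1),
      liminf (fun k => ‖𝓕 (ch (sv w.1) (trc f k)) w.2‖ₑ ^ q) atTop =
        ‖𝓕 (ch (sv w.1) f) w.2‖ₑ ^ q := by
    intro w
    apply Tendsto.liminf_eq
    exact ((ENNReal.continuous_rpow_const (y := q)).tendsto _).comp
      ((F_trc_lim hf hi (sv w.1) w.2).enorm)
  rw [hII f hf]
  calc ∫⁻ w, ‖𝓕 (ch (sv w.1) f) w.2‖ₑ ^ q ∂(ν.prod volume)
      = ∫⁻ w, liminf (fun k => ‖𝓕 (ch (sv w.1) (trc f k)) w.2‖ₑ ^ q) atTop ∂(ν.prod volume) := by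
        simp only [hlim]
    _ ≤ liminf (fun k => ∫⁻ w, ‖𝓕 (ch (sv w.1) (trc f k)) w.2‖ₑ ^ q ∂(ν.prod volume)) atTop :=
        lintegral_liminf_le fun k =>
          (meas_Fch (m := m) (trc_BS hf hs k).meas).enorm.pow_const q
    _ ≤ C * ∫⁻ z, ‖f z‖ₑ ^ q := by
        refine liminf_le_of_le (by isBoundedDefault) fun b hb => ?_
        obtain ⟨k, hk⟩ := hb.exists
        refine hk.trans ?_
        rw [← hII _ (trc_BS hf hs k).meas]
        refine (h μ hμ _ _ (trc_BS hf hs k)).trans ?_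
        gcongr with z
        exact trc_le f k z

end Pool.Agent.W777.ST
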