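import Mathlib
import Pool.Agent.W777.ST.AvQ
import Pool.Agent.W777.ST.Fin2
set_option autoImplicit false

/-! Averages over stretchings with respect to measures on the line. -/

namespace Pool.Agent.W777.ST

open MeasureTheory Set Complex FourierTransform Filter
open scoped ENNReal NNReal RealInnerProductSpace Topology
open Pool.Agent.H153R4
open Pool.Agent.W777.DL (pr pr_meas E3_lint measurable_vec2)

lemma det_As (s : ℝ) (hs : s ≠ 0) : LinearMap.det (As s hs : E 2 →ₗ[ℝ] E 2) = s := by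
  rw [← LinearMap.det_toMatrix (EuclideanSpace.basisFun (Fin 2) ℝ).toBasis, Matrix.det_fin_two]
  simp [LinearMap.toMatrix_apply, As]

lemma det_Bs (s : ℝ) (hs : s ≠ 0) : LinearMap.det (Bs s hs : E 3 →ₗ[ℝ] E 3) =
    (2 * Real.pi)⁻¹ ^ 3 * s := by
  rw [← LinearMap.det_toMatrix (EuclideanSpace.basisFun (Fin 3) ℝ).toBasis, Matrix.det_fin_three]
  simp [LinearMap.toMatrix_apply, Bs]
  ring

lemma ext_int {s q : ℝ} (hs : 0 < s) (hq : 0 < q) {f : E 2 → ℂ} (hf : Measurable f) :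
    ∫⁻ ξ, ‖ext (stretch s f) ξ‖ₑ ^ q =
      ENNReal.ofReal ((2 * Real.pi) ^ 3 * s ^ (q - 1)) * GG q (s ^ 2) univ f := by
  have hpi := Real.pi_pos
  set c : ℂ := ((|(LinearMap.det (As s hs.ne' : E 2 →ₗ[ℝ] E 2))| : ℝ) : ℂ) with hc
  have hcs : ‖c‖ₑ = ENNReal.ofReal s := by
    rw [hc, det_As, abs_of_pos hs, ← ofReal_norm, Complex.norm_real, Real.norm_of_nonneg hs.le]
  have hm := FL_meas (s ^ 2) hf
  set K : E 3 → ℝ≥0∞ := fun y => ‖𝓕 (ch (sv (y 2, ll (s ^ 2))) f) (pr y)‖ₑ ^ q with hK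
  have hKm : Measurable K := by
    have : Measurable fun y : E 3 => 𝓕 (ch (sv (y 2, ll (s ^ 2))) f) (pr y) :=
      hm.comp (f := fun y : E 3 => (y 2, pr y)) (Measurable.prodMk (by fun_prop) pr_meas)
    exact this.enorm.pow_const q
  have e1 : ∀ ξ, ‖ext (stretch s f) ξ‖ₑ ^ q = ‖c‖ₑ ^ q * K (Bs s hs.ne' ξ) := by
    intro ξ
    rw [ext_stretch hs hf ξ, enorm_mul, ENNReal.mul_rpow_of_nonneg _ _ hq.le]
  simp only [e1]
  have hcq : ‖c‖ₑ ^ q ≠ ⊤ := ENNReal.rpow_ne_top_of_nonneg hq.le (by simp)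
  rw [lintegral_const_mul' _ _ hcq]
  have e2 : ∫⁻ ξ, K (Bs s hs.ne' ξ) = ∫⁻ y, K y ∂(Measure.map (Bs s hs.ne') volume) :=
    (lintegral_map hKm (equiv_meas _)).symm
  rw [e2, map_equiv, lintegral_smul_measure, smul_eq_mul, det_Bs, hcs]
  have hH : Measurable (Function.uncurry fun (t : ℝ) (y : E 2) =>
      ‖𝓕 (ch (sv (t, ll (s ^ 2))) f) y‖ₑ ^ q) := hm.enorm.pow_const q
  have e3 := E3_lint (fun (t : ℝ) (y : E 2) => ‖𝓕 (ch (sv (t, ll (s ^ 2))) f) y‖ₑ ^ q) hH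
  rw [hK, e3, ← mul_assoc]
  unfold GG
  rw [Measure.restrict_univ]
  congr 1
  rw [ENNReal.ofReal_rpow_of_pos hs, ← ENNReal.ofReal_mul (by positivity)]
  congr 1
  rw [abs_of_pos (by positivity), Real.rpow_sub_one hs.ne']
  field_simp

lemma stretch_int {s q : ℝ} (hs : 0 < s) {f : E 2 → ℂ} (hf : Measurable f) :
    ∫⁻ x, ‖stretch s f x‖ₑ ^ q = ENNReal.ofReal s * ∫⁻ x, ‖f x‖ₑ ^ q := by
  have h1 : ∀ x, stretch s f x = f ((As s hs.ne').symm x) := by
    intro x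
    unfold stretch
    congr 1
    ext i
    fin_cases i
    · rfl
    · change x 1 / s = s⁻¹ * x 1
      ring
  simp only [h1]
  have h2 : ∫⁻ x, ‖f ((As s hs.ne').symm x)‖ₑ ^ q =
      ∫⁻ y, ‖f y‖ₑ ^ q ∂(Measure.map ((As s hs.ne').symm) volume) :=
    (lintegral_map (hf.enorm.pow_const q) (equiv_meas _)).symm
  rw [h2, map_equiv, lintegral_smul_measure, smul_eq_mul]
  congr 2
  have h3 : LinearMap.det ((As s hs.ne').symm : E 2 →ₗ[ℝ] E 2) =
      (LinearMap.det (As s hs.ne' : E 2 →ₗ[ℝ] E 2))⁻¹ := by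
    exact eq_inv_of_mul_eq_one_left (LinearEquiv.det_symm_mul_det (As s hs.ne'))
  rw [h3, det_As, inv_inv, abs_of_pos hs]

/-- the measure of parameters `l = s²` -/
noncomputable def kap (q : ℝ) (μ : Measure ℝ) : Measure (Fin 1 → ℝ) :=
  Measure.map (fun s : ℝ => ll (s ^ 2))
    ((μ.restrict (Ioc 0 1)).withDensity fun s => ENNReal.ofReal (s ^ (q - 2)))

lemma ll_meas : Measurable fun s : ℝ => ll (s ^ 2) := by
  unfold ll
  fun_prop

lemma kap_frost {q α A : ℝ} (hα0 : 0 < α) (hαq : α ≤ q - 2) (hA : 0 ≤ A) {μ : Measure ℝ}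
    (hμ : ∀ a r : ℝ, 0 < r → r ≤ 1 → μ (Icc a (a + r)) ≤ ENNReal.ofReal (A * r ^ α)) :
    Frost (kap q μ) (A * 2 ^ ((q - 2 + α) / 2)) α := by
  intro a r hr hr1
  have hq2 : 0 ≤ q - 2 := by linarith
  unfold kap
  rw [Measure.map_apply ll_meas measurableSet_Icc,
    withDensity_apply _ (ll_meas measurableSet_Icc), Measure.restrict_restrict
      (ll_meas measurableSet_Icc)]
  have hset : ∀ s ∈ (fun s : ℝ => ll (s ^ 2)) ⁻¹' Icc a (fun j => a j + r) ∩ Ioc 0 1,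
      0 < s ∧ s ≤ 1 ∧ a 0 ≤ s ^ 2 ∧ s ^ 2 ≤ a 0 + r := by
    rintro s ⟨hs1, hs2⟩
    exact ⟨hs2.1, hs2.2, hs1.1 0, hs1.2 0⟩
  set S := (fun s : ℝ => ll (s ^ 2)) ⁻¹' Icc a (fun j => a j + r) ∩ Ioc 0 1 with hS
  have hSm : MeasurableSet S := (ll_meas measurableSet_Icc).inter measurableSet_Ioc
  have hK : (2:ℝ) ^ ((q - 2) / 2) ≤ 2 ^ ((q - 2 + α) / 2) :=
    Real.rpow_le_rpow_of_exponent_le (by norm_num) (by linarith)
  rcases lt_or_ge (a 0) r with har | har
  · -- near zero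
    have hρ : ∀ s ∈ S, s ^ (q - 2) ≤ (2 * r) ^ ((q - 2) / 2) := by
      intro s hs
      obtain ⟨h0, h1, h2, h3⟩ := hset s hs
      have e : s ^ (q - 2) = (s ^ 2) ^ ((q - 2) / 2) := by
        rw [← Real.rpow_natCast, ← Real.rpow_mul h0.le]
        congr 1
        push_cast
        ring
      rw [e]
      exact Real.rpow_le_rpow (by positivity) (by linarith) (by linarith)
    set ρ := min (Real.sqrt (2 * r)) 1 with hρd
    have hρ0 : 0 < ρ := lt_min (Real.sqrt_pos.2 (by linarith)) one_pos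
    have hsub : S ⊆ Icc 0 (0 + ρ) := by
      intro s hs
      obtain ⟨h0, h1, h2, h3⟩ := hset s hs
      refine ⟨h0.le, ?_⟩
      rw [zero_add]
      refine le_min ?_ h1
      apply Real.le_sqrt_of_sq_le
      linarith
    calc ∫⁻ s in S, ENNReal.ofReal (s ^ (q - 2)) ∂μ
        ≤ ∫⁻ _ in S, ENNReal.ofReal ((2 * r) ^ ((q - 2) / 2)) ∂μ :=
          setLIntegral_mono' hSm fun s hs => ENNReal.ofReal_le_ofReal (hρ s hs)
      _ = ENNReal.ofReal ((2 * r) ^ ((q - 2) / 2)) * μ S := setLIntegral_const _ _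
      _ ≤ ENNReal.ofReal ((2 * r) ^ ((q - 2) / 2)) * ENNReal.ofReal (A * ρ ^ α) := by
          gcongr
          exact (measure_mono hsub).trans (hμ 0 ρ hρ0 (min_le_right _ _))
      _ ≤ _ := by
          rw [← ENNReal.ofReal_mul (by positivity)]
          apply ENNReal.ofReal_le_ofReal
          have h5 : ρ ^ α ≤ (2 * r) ^ (α / 2) := by
            have : (2 * r) ^ (α / 2) = Real.sqrt (2 * r) ^ α := by
              rw [Real.sqrt_eq_rpow, ← Real.rpow_mul (by positivity)]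
              congr 1
              ring
            rw [this]
            exact Real.rpow_le_rpow hρ0.le (min_le_left _ _) hα0.le
          have h6 : r ^ ((q - 2 + α) / 2) ≤ r ^ α :=
            Real.rpow_le_rpow_of_exponent_ge hr hr1 (by linarith)
          calc (2 * r) ^ ((q - 2) / 2) * (A * ρ ^ α)
              ≤ (2 * r) ^ ((q - 2) / 2) * (A * (2 * r) ^ (α / 2)) := by gcongr
            _ = A * ((2 * r) ^ ((q - 2 + α) / 2)) := by
                rw [show (q - 2 + α) / 2 = (q - 2) / 2 + α / 2 by ring,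
                  Real.rpow_add (by positivity)]
                ring
            _ = A * 2 ^ ((q - 2 + α) / 2) * r ^ ((q - 2 + α) / 2) := by
                rw [Real.mul_rpow (by norm_num) hr.le]
                ring
            _ ≤ A * 2 ^ ((q - 2 + α) / 2) * r ^ α := by gcongr
  · -- away from zero
    rcases lt_or_ge 1 (a 0) with ha1 | ha1
    · have hemp : S = ∅ := by
        rw [eq_empty_iff_forall_notMem]
        intro s hs
        obtain ⟨h0, h1, h2, h3⟩ := hset s hs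
        nlinarith
      rw [hemp]
      simp
    have ha0 : 0 < a 0 := lt_of_lt_of_le hr har
    have hρ : ∀ s ∈ S, s ^ (q - 2) ≤ (2 * a 0) ^ ((q - 2) / 2) := by
      intro s hs
      obtain ⟨h0, h1, h2, h3⟩ := hset s hs
      have e : s ^ (q - 2) = (s ^ 2) ^ ((q - 2) / 2) := by
        rw [← Real.rpow_natCast, ← Real.rpow_mul h0.le]
        congr 1
        push_cast
        ring
      rw [e]
      exact Real.rpow_le_rpow (by positivity) (by linarith) (by linarith)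
    set ρ := r / Real.sqrt (a 0) with hρd
    have hsq : 0 < Real.sqrt (a 0) := Real.sqrt_pos.2 ha0
    have hsqs : Real.sqrt (a 0) ^ 2 = a 0 := Real.sq_sqrt ha0.le
    have hsq1 : Real.sqrt (a 0) ≤ 1 := Real.sqrt_le_one.2 ha1
    have hρ0 : 0 < ρ := by positivity
    have hρ1 : ρ ≤ 1 := by
      rw [hρd, div_le_one hsq]
      nlinarith
    have hsub : S ⊆ Icc (Real.sqrt (a 0)) (Real.sqrt (a 0) + ρ) := by
      intro s hs
      obtain ⟨h0, h1, h2, h3⟩ := hset s hs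
      refine ⟨Real.sqrt_le_iff.2 ⟨h0.le, h2⟩, ?_⟩
      apply le_of_sq_le_sq _ (by positivity)
      have e : (Real.sqrt (a 0) + ρ) ^ 2 = a 0 + 2 * r + ρ ^ 2 := by
        rw [add_sq, hsqs, hρd]
        field_simp
      rw [e]
      nlinarith [sq_nonneg ρ]
    calc ∫⁻ s in S, ENNReal.ofReal (s ^ (q - 2)) ∂μ
        ≤ ∫⁻ _ in S, ENNReal.ofReal ((2 * a 0) ^ ((q - 2) / 2)) ∂μ :=
          setLIntegral_mono' hSm fun s hs => ENNReal.ofReal_le_ofReal (hρ s hs)
      _ = ENNReal.ofReal ((2 * a 0) ^ ((q - 2) / 2)) * μ S := setLIntegral_const _ _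
      _ ≤ ENNReal.ofReal ((2 * a 0) ^ ((q - 2) / 2)) * ENNReal.ofReal (A * ρ ^ α) := by
          gcongr
          exact (measure_mono hsub).trans (hμ _ ρ hρ0 hρ1)
      _ ≤ _ := by
          rw [← ENNReal.ofReal_mul (by positivity)]
          apply ENNReal.ofReal_le_ofReal
          have h5 : ρ ^ α = r ^ α * (a 0) ^ (-(α / 2)) := by
            rw [hρd, Real.div_rpow hr.le hsq.le, Real.rpow_neg ha0.le, Real.sqrt_eq_rpow,
              ← Real.rpow_mul ha0.le, div_eq_mul_inv]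
            congr 3
            ring
          have h6 : (a 0) ^ ((q - 2) / 2 + -(α / 2)) ≤ 1 :=
            Real.rpow_le_one ha0.le ha1 (by linarith)
          calc (2 * a 0) ^ ((q - 2) / 2) * (A * ρ ^ α)
              = A * 2 ^ ((q - 2) / 2) * r ^ α * (a 0) ^ ((q - 2) / 2 + -(α / 2)) := by
                rw [h5, Real.mul_rpow (by norm_num) ha0.le, Real.rpow_add ha0]
                ring
            _ ≤ A * 2 ^ ((q - 2) / 2) * r ^ α * 1 := by gcongr
            _ ≤ A * 2 ^ ((q - 2 + α) / 2) * r ^ α := by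
                rw [mul_one]
                gcongr

lemma kap_restr (q : ℝ) (μ : Measure ℝ) :
    (kap q μ).restrict (Icc (fun _ => -1) (fun _ => 1)) = kap q μ := by
  apply Measure.restrict_eq_self_of_ae_mem
  unfold kap
  have hmeas : MeasurableSet {x : Fin 1 → ℝ | x ∈ Icc (fun _ : Fin 1 => (-1:ℝ)) (fun _ => 1)} :=
    measurableSet_Icc
  rw [ae_map_iff ll_meas.aemeasurable hmeas]
  have h : ∀ᵐ s ∂(μ.restrict (Ioc (0:ℝ) 1)), ll (s ^ 2) ∈ Icc (fun _ : Fin 1 => (-1:ℝ))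
      (fun _ => 1) := by
    filter_upwards [ae_restrict_mem measurableSet_Ioc] with s hs
    refine ⟨fun j => ?_, fun j => ?_⟩
    · change -1 ≤ s ^ 2
      nlinarith [sq_nonneg s]
    · change s ^ 2 ≤ 1
      nlinarith [hs.1, hs.2]
  exact (withDensity_absolutelyContinuous _ _).ae_le h

theorem avg_s {α q A : ℝ} (hα0 : 0 < α) (hα1 : α ≤ 1) (hq : 2 + 2 / (1 + α) < q)
    (hA : 0 < A) : ∃ C : ℝ≥0∞, C < ⊤ ∧ ∀ μ : Measure ℝ,
    (∀ a r : ℝ, 0 < r → r ≤ 1 → μ (Icc a (a + r)) ≤ ENNReal.ofReal (A * r ^ α)) →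
    ∀ f : E 2 → ℂ, Measurable f → (∀ z, z ∉ cube 2 → f z = 0) → ∫⁻ z, ‖f z‖ₑ ^ q ≠ ⊤ →
      ∫⁻ s in Ioc (0:ℝ) 1, ENNReal.ofReal (s ^ (q - 2)) * GG q (s ^ 2) univ f ∂μ ≤
        C * ∫⁻ z, ‖f z‖ₑ ^ q := by
  have hαq : α ≤ q - 2 := by
    have : 1 ≤ 2 / (1 + α) := by
      rw [le_div_iff₀ (by linarith)]
      linarith
    linarith
  obtain ⟨C, hC, h⟩ := main_L 1 α q hα0 hq 1 (A * 2 ^ ((q - 2 + α) / 2)) le_rfl (by positivity)
  refine ⟨C, hC, fun μ hμ f hf hs hfin => ?_⟩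
  have hfr := kap_frost (q := q) hα0 hαq hA.le hμ
  have hlf := hfr.locfin
  have key := h (kap q μ) hfr f hf hs hfin
  rw [II_eq (kap q μ) 1 q univ hf] at key
  unfold HH at key
  rw [kap_restr, Measure.restrict_univ] at key
  rw [lintegral_lintegral_swap (G_meas q hf).aemeasurable] at key
  refine le_trans (le_of_eq ?_) key
  have hG : Measurable fun l : Fin 1 → ℝ => ∫⁻ t : ℝ, ∫⁻ x, ‖𝓕 (ch (sv (t, l)) f) x‖ₑ ^ q :=
    ((G_meas (m := 1) q hf).comp measurable_swap).lintegral_prod_right'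
  have hG' : Measurable fun s : ℝ => GG q (s ^ 2) univ f := by
    unfold GG
    rw [Measure.restrict_univ]
    exact hG.comp ll_meas
  have e1 : ∫⁻ l, (∫⁻ t : ℝ, ∫⁻ x, ‖𝓕 (ch (sv (t, l)) f) x‖ₑ ^ q) ∂(kap q μ) =
      ∫⁻ s, GG q (s ^ 2) univ f ∂((μ.restrict (Ioc 0 1)).withDensity
        fun s => ENNReal.ofReal (s ^ (q - 2))) := by
    unfold kap
    rw [lintegral_map hG ll_meas]
    unfold GG
    rw [Measure.restrict_univ]
  rw [e1, lintegral_withDensity_eq_lintegral_mul _ (by fun_prop) hG']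
  rfl

end Pool.Agent.W777.ST
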